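import Mathlib
import Pool.Agent.KS6_96.Csl.CslE

open scoped InnerProduct ENNReal
open MeasureTheory ContinuousLinearMap

namespace Pool.Agent.KS6_96.Csl

section General

variable {F : Type*} [NormedAddCommGroup F] [InnerProductSpace ℂ F]

lemma norm_sq_sum_orth {ι : Type*} (s : Finset ι) (w : ι → F)
    (hw : ∀ i ∈ s, ∀ j ∈ s, i ≠ j → inner ℂ (w i) (w j) = 0) :
    ‖∑ i ∈ s, w i‖ ^ 2 = ∑ i ∈ s, ‖w i‖ ^ 2 := by
  classical
  rw [← inner_self_eq_norm_sq (𝕜 := ℂ), sum_inner]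
  simp only [inner_sum]
  have h1 : ∀ i ∈ s, ∑ j ∈ s, inner ℂ (w i) (w j) = inner ℂ (w i) (w i) := by
    intro i hi
    refine Finset.sum_eq_single i (fun j hj hji => hw i hi j hj (Ne.symm hji)) ?_
    intro h; exact absurd hi h
  rw [Finset.sum_congr rfl h1, map_sum]
  exact Finset.sum_congr rfl fun i _ => inner_self_eq_norm_sq (𝕜 := ℂ) (w i)

lemma norm_sum_rank_le {n : ℕ} (v w : Fin n → F)
    (hv : ∀ i j, i ≠ j → inner ℂ (v i) (v j) = 0)
    (hw : ∀ i j, i ≠ j → inner ℂ (w i) (w j) = 0) (hv0 : ∀ i, v i ≠ 0) (κ : ℝ) (hκ0 : 0 ≤ κ)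
    (h : ∀ i, ‖v i‖ * ‖w i‖ ≤ κ) (f : F) :
    ‖∑ i, inner ℂ (v i) f • w i‖ ≤ κ * ‖f‖ := by
  have hn : ∀ i, ‖v i‖ ≠ 0 := fun i => norm_ne_zero_iff.2 (hv0 i)
  have ho : Orthonormal ℂ (fun i => ((‖v i‖⁻¹ : ℝ) : ℂ) • v i) := by
    refine ⟨fun i => ?_, fun i j hij => ?_⟩
    · rw [norm_smul, Complex.norm_real, norm_inv, norm_norm, inv_mul_cancel₀ (hn i)]
    · change inner ℂ (((‖v i‖⁻¹ : ℝ) : ℂ) • v i) (((‖v j‖⁻¹ : ℝ) : ℂ) • v j) = 0
      rw [inner_smul_left, inner_smul_right, hv i j hij]; simp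
  have hb := ho.sum_inner_products_le f (s := Finset.univ)
  have h1 : ‖∑ i, inner ℂ (v i) f • w i‖ ^ 2 ≤ (κ * ‖f‖) ^ 2 := by
    rw [norm_sq_sum_orth]
    · calc ∑ i, ‖inner ℂ (v i) f • w i‖ ^ 2
          ≤ ∑ i, κ ^ 2 * ‖inner ℂ (((‖v i‖⁻¹ : ℝ) : ℂ) • v i) f‖ ^ 2 := by
            refine Finset.sum_le_sum fun i _ => ?_
            rw [norm_smul, inner_smul_left, norm_mul, Complex.conj_ofReal, Complex.norm_real,
              norm_inv, norm_norm, mul_pow, mul_pow]
            have h2 : ‖inner ℂ (v i) f‖ ^ 2 * ‖w i‖ ^ 2 =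
                (‖v i‖ * ‖w i‖) ^ 2 * ((‖v i‖⁻¹) ^ 2 * ‖inner ℂ (v i) f‖ ^ 2) := by
              have := hn i
              field_simp
            rw [h2]
            have h3 : (‖v i‖ * ‖w i‖) ^ 2 ≤ κ ^ 2 :=
              pow_le_pow_left₀ (by positivity) (h i) 2
            exact mul_le_mul_of_nonneg_right h3 (by positivity)
        _ = κ ^ 2 * ∑ i, ‖inner ℂ (((‖v i‖⁻¹ : ℝ) : ℂ) • v i) f‖ ^ 2 := by
            rw [Finset.mul_sum]
        _ ≤ κ ^ 2 * ‖f‖ ^ 2 := mul_le_mul_of_nonneg_left hb (by positivity)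
        _ = (κ * ‖f‖) ^ 2 := by ring
    · intro i _ j _ hij
      rw [inner_smul_left, inner_smul_right, hw i j hij]; simp
  exact le_of_sq_le_sq h1 (by positivity)

lemma tendsto_of_dense (T : ℕ → (F →L[ℂ] F)) (C : ℝ) (hC : ∀ n, ‖T n‖ ≤ C) (S : Set F)
    (hS : Dense S) (h : ∀ g ∈ S, Filter.Tendsto (fun n => T n g) Filter.atTop (nhds g)) (f : F) :
    Filter.Tendsto (fun n => T n f) Filter.atTop (nhds f) := by
  have hC0 : 0 ≤ C := (norm_nonneg _).trans (hC 0)
  rw [Metric.tendsto_atTop]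
  intro ε hε
  obtain ⟨g, hg, hfg⟩ := hS.exists_dist_lt f (ε := ε / (2 * (C + 2))) (by positivity)
  obtain ⟨N, hN⟩ := (Metric.tendsto_atTop.1 (h g hg)) (ε / 2) (by positivity)
  refine ⟨N, fun n hn => ?_⟩
  have h1 := hN n hn
  rw [dist_eq_norm] at *
  have e1 : T n f - f = T n (f - g) + (T n g - g) - (f - g) := by
    rw [map_sub]; abel
  rw [e1]
  calc ‖T n (f - g) + (T n g - g) - (f - g)‖
      ≤ ‖T n (f - g)‖ + ‖T n g - g‖ + ‖f - g‖ :=
        (norm_sub_le _ _).trans (add_le_add_left (norm_add_le _ _) _)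
    _ ≤ C * ‖f - g‖ + ‖T n g - g‖ + ‖f - g‖ := by
        have := ((T n).le_opNorm (f - g)).trans
          (mul_le_mul_of_nonneg_right (hC n) (norm_nonneg _))
        linarith
    _ = (C + 1) * ‖f - g‖ + ‖T n g - g‖ := by ring
    _ < (C + 1) * (ε / (2 * (C + 2))) + ε / 2 := by
        have : (C + 1) * ‖f - g‖ < (C + 1) * (ε / (2 * (C + 2))) :=
          mul_lt_mul_of_pos_left hfg (by linarith)
        linarith
    _ ≤ ε := by
        have : (C + 1) * (ε / (2 * (C + 2))) ≤ ε / 2 := by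
          rw [mul_div_assoc', div_le_div_iff₀ (by positivity) (by positivity)]
          nlinarith
        linarith

end General

/-- partition points. -/
noncomputable def pt (n i : ℕ) : unitInterval :=
  Set.projIcc (0 : ℝ) 1 zero_le_one ((i : ℝ) / (n + 2))

lemma pt_mono (n : ℕ) : Monotone (pt n) := by
  intro i j hij
  refine Set.monotone_projIcc _ ?_
  have : (i : ℝ) ≤ j := by exact_mod_cast hij
  gcongr

lemma pt_val (n i : ℕ) (hi : i ≤ n + 2) : ((pt n i : unitInterval) : ℝ) = (i : ℝ) / (n + 2) := by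
  have h0 : (0 : ℝ) < n + 2 := by positivity
  have h1 : (i : ℝ) / (n + 2) ∈ Set.Icc (0 : ℝ) 1 := by
    refine ⟨by positivity, ?_⟩
    rw [div_le_one h0]
    exact_mod_cast hi
  unfold pt
  rw [Set.projIcc_of_mem _ h1]

/-- normalised pieces. -/
noncomputable def u (n i : ℕ) : E := ind (Set.Ico (pt n i) (pt n (i + 1))) measurableSet_Ico

lemma norm_u (n i : ℕ) (hi : i < n + 2) : ‖u n i‖ ^ 2 = 1 / ((n : ℝ) + 2) := by
  unfold u
  rw [norm_ind, unitInterval.volume_Ico, pt_val n i hi.le, pt_val n (i + 1) hi]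
  have h0 : (0 : ℝ) < n + 2 := by positivity
  have h1 : ((i + 1 : ℕ) : ℝ) / (n + 2) - (i : ℝ) / (n + 2) = 1 / (n + 2) := by
    push_cast; field_simp; ring
  rw [h1, ENNReal.toReal_ofReal (by positivity)]

lemma u_ne_zero (n i : ℕ) (hi : i < n + 2) : u n i ≠ 0 := by
  intro h
  have := norm_u n i hi
  rw [h] at this
  have h0 : (0 : ℝ) < n + 2 := by positivity
  simp at this
  linarith

lemma m_u_orth (n : ℕ) {i j : ℕ} (hij : i ≠ j) (φ ψ : C(unitInterval, ℂ)) :
    inner ℂ (m φ (u n i)) (m ψ (u n j)) = 0 :=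
  inner_m_ind_disjoint _ _ _ _ ((pt_mono n).pairwise_disjoint_on_Ico_succ hij) φ ψ

lemma u_orth (n : ℕ) {i j : ℕ} (hij : i ≠ j) : inner ℂ (u n i) (u n j) = 0 := by
  have := m_u_orth n hij 1 1
  rwa [m_one, m_one] at this

lemma sum_u (n k : ℕ) : ∑ i ∈ Finset.range k, u n i =
    ind (Set.Ico (pt n 0) (pt n k)) measurableSet_Ico := by
  induction k with
  | zero =>
    have h1 : ‖ind (Set.Ico (pt n 0) (pt n 0)) measurableSet_Ico‖ ^ 2 = 0 := by
      rw [norm_ind]; simp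
    have h2 : ind (Set.Ico (pt n 0) (pt n 0)) measurableSet_Ico = 0 := by
      simpa using h1
    rw [h2]; simp
  | succ k ih =>
    rw [Finset.sum_range_succ, ih]
    refine Lp.ext ?_
    filter_upwards [Lp.coeFn_add (ind (Set.Ico (pt n 0) (pt n k)) measurableSet_Ico) (u n k),
      ind_coe (Set.Ico (pt n 0) (pt n k)) measurableSet_Ico,
      ind_coe (Set.Ico (pt n k) (pt n (k + 1))) measurableSet_Ico,
      ind_coe (Set.Ico (pt n 0) (pt n (k + 1))) measurableSet_Ico] with t h1 h2 h3 h4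
    rw [h1, Pi.add_apply, h2, h4]
    unfold u
    rw [h3]
    have hm1 : pt n 0 ≤ pt n k := pt_mono n (Nat.zero_le _)
    have hm2 : pt n k ≤ pt n (k + 1) := pt_mono n (Nat.le_succ _)
    rw [← Set.Ico_union_Ico_eq_Ico hm1 hm2, Set.indicator_union_of_disjoint]
    rw [Set.disjoint_left]
    rintro x ⟨_, hx⟩ ⟨hx', _⟩
    exact absurd hx (not_lt.2 hx')

lemma sum_u_one (n : ℕ) : ∑ i ∈ Finset.range (n + 2), u n i = one := by
  rw [sum_u]
  have h0 : pt n 0 = 0 := by
    apply Subtype.ext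
    rw [pt_val n 0 (Nat.zero_le _)]; simp
  have h1 : pt n (n + 2) = 1 := by
    apply Subtype.ext
    rw [pt_val n (n + 2) le_rfl]
    push_cast
    exact div_self (by positivity)
  rw [h0, h1]
  refine Lp.ext ?_
  have hne : ∀ᵐ t : unitInterval, t ≠ 1 := by
    rw [ae_iff]
    simp
  filter_upwards [ind_coe (Set.Ico (0 : unitInterval) 1) measurableSet_Ico,
    ContinuousMap.coeFn_toLp (p := 2) (𝕜 := ℂ) volume (1 : C(unitInterval, ℂ)), hne]
    with t h1 h2 h3
  rw [h1]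
  unfold one
  rw [h2, ContinuousMap.one_apply, Set.indicator_of_mem]
  exact ⟨t.2.1, lt_of_le_of_ne t.2.2 h3⟩

/-- the shifted averaging operator, of finite rank. -/
noncomputable def K0 (n : ℕ) : E →L[ℂ] E :=
  ∑ i : Fin n, (((n : ℝ) + 2 : ℝ) : ℂ) • (innerSL ℂ (u n i)).smulRight (u n (i + 2))

lemma K0_apply (n : ℕ) (f : E) :
    K0 n f = ∑ i : Fin n, (((n : ℝ) + 2 : ℝ) : ℂ) • inner ℂ (u n i) f • u n (i + 2) := by
  simp [K0]

lemma isCompactOperator_sum {ι : Type*} (s : Finset ι) {F G : Type*} [NormedAddCommGroup F]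
    [NormedSpace ℂ F] [NormedAddCommGroup G] [NormedSpace ℂ G] (T : ι → (F →L[ℂ] G))
    (h : ∀ i ∈ s, IsCompactOperator (T i)) : IsCompactOperator (∑ i ∈ s, T i : F →L[ℂ] G) := by
  classical
  induction s using Finset.induction_on with
  | empty => simpa using isCompactOperator_zero
  | insert a s ha ih =>
    rw [Finset.sum_insert ha]
    exact (h a (Finset.mem_insert_self _ _)).add
      (ih fun i hi => h i (Finset.mem_insert_of_mem hi))

lemma isCompactOperator_rank_one {F G : Type*} [NormedAddCommGroup F] [NormedSpace ℂ F]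
    [NormedAddCommGroup G] [NormedSpace ℂ G] (l : F →L[ℂ] ℂ) (y : G) :
    IsCompactOperator (l.smulRight y) := by
  have h1 : IsCompactOperator (ContinuousLinearMap.toSpanSingleton ℂ y) :=
    isCompactOperator_of_locallyCompactSpace_rng (ContinuousLinearMap.toSpanSingleton ℂ y)
  exact h1.comp_clm l

lemma K0_compact (n : ℕ) : IsCompactOperator (K0 n) :=
  isCompactOperator_sum _ _ fun i _ => by
    have := (isCompactOperator_rank_one (innerSL ℂ (u n i)) (u n (i + 2))).smul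
      ((((n : ℝ) + 2 : ℝ) : ℂ))
    exact this

/-- exponentials. -/
noncomputable def ex (c : ℝ) : C(unitInterval, ℂ) :=
  ⟨fun t => ((Real.exp (c * t) : ℝ) : ℂ), by fun_prop⟩

lemma ex_apply (c : ℝ) (t : unitInterval) : ex c t = ((Real.exp (c * t) : ℝ) : ℂ) := rfl

lemma ex_mul (c d : ℝ) : ex c * ex d = ex (c + d) := by
  ext t
  simp only [ContinuousMap.mul_apply, ex_apply, ← Complex.ofReal_mul, ← Real.exp_add, add_mul]

lemma ex_zero : ex 0 = 1 := by
  ext t
  simp [ex_apply]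

lemma ex_star (c : ℝ) : star (ex c) = ex c := by
  ext t
  rw [ContinuousMap.star_apply, ex_apply, RCLike.star_def, Complex.conj_ofReal]

lemma m_ex_inner (c : ℝ) (f g : E) : inner ℂ (m (ex c) f) g = inner ℂ f (m (ex c) g) := by
  rw [m_inner, ex_star]

/-- the compact operators on `L²[0,1]`. -/
noncomputable def kk (n : ℕ) (c : ℝ) : E →L[ℂ] E := m (ex (-c)) ∘L K0 n ∘L m (ex c)

lemma kk_apply (n : ℕ) (c : ℝ) (f : E) : kk n c f = m (ex (-c)) (K0 n (m (ex c) f)) := rfl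

lemma kk_compact (n : ℕ) (c : ℝ) : IsCompactOperator (kk n c) :=
  ((K0_compact n).comp_clm (m (ex c))).clm_comp (m (ex (-c)))

lemma kk_intertwine (n : ℕ) (c d : ℝ) (f : E) :
    kk n c (m (ex d) f) = m (ex d) (kk n (c + d) f) := by
  rw [kk_apply, kk_apply, ← m_mul, ← m_mul, ex_mul, ex_mul]
  congr 2
  ring_nf

lemma norm_m_u_le (n i : ℕ) (hi : i < n + 2) (φ : C(unitInterval, ℂ)) (B : ℝ)
    (hB : ∀ t : unitInterval, (i : ℝ) / (n + 2) ≤ t → (t : ℝ) ≤ ((i : ℝ) + 1) / (n + 2) →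
      ‖φ t‖ ≤ B) :
    ‖m φ (u n i)‖ ≤ B * ‖u n i‖ := by
  refine norm_m_ind_le _ _ φ B fun t ht => hB t ?_ ?_
  · rw [← pt_val n i hi.le]
    exact ht.1
  · have h1 := pt_val n (i + 1) hi
    push_cast at h1
    rw [← h1]
    exact ht.2.le

lemma m_ex_ne_zero (c : ℝ) {f : E} (hf : f ≠ 0) : m (ex c) f ≠ 0 := by
  intro h
  apply hf
  have : m (ex (-c)) (m (ex c) f) = f := by
    rw [← m_mul, ex_mul, neg_add_cancel, ex_zero, m_one]
  rw [← this, h, map_zero]

lemma kk_norm (n : ℕ) (c : ℝ) (hc : 0 ≤ c) : ‖kk n c‖ ≤ Real.exp (-c / (n + 2)) := by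
  refine ContinuousLinearMap.opNorm_le_bound _ (Real.exp_pos _).le fun f => ?_
  have h0 : (0 : ℝ) < n + 2 := by positivity
  have e1 : kk n c f = ∑ i : Fin n, inner ℂ (m (ex c) (u n i)) f •
      ((((n : ℝ) + 2 : ℝ) : ℂ) • m (ex (-c)) (u n (i + 2))) := by
    rw [kk_apply, K0_apply, map_sum]
    refine Finset.sum_congr rfl fun i _ => ?_
    rw [map_smul, map_smul, smul_comm, m_ex_inner]
  rw [e1]
  refine norm_sum_rank_le _ _ ?_ ?_ ?_ _ (Real.exp_pos _).le ?_ f
  · intro i j hij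
    exact m_u_orth n (fun h => hij (Fin.ext h)) _ _
  · intro i j hij
    rw [inner_smul_left, inner_smul_right, m_u_orth n (fun h => hij (Fin.ext (by omega)))]
    simp
  · intro i
    exact m_ex_ne_zero c (u_ne_zero n i (by omega))
  · intro i
    have hi : (i : ℕ) < n := i.2
    have b1 : ‖m (ex c) (u n i)‖ ≤ Real.exp (c * (((i : ℕ) + 1) / (n + 2))) * ‖u n i‖ := by
      refine norm_m_u_le n i (by omega) _ _ fun t _ ht => ?_
      rw [ex_apply, Complex.norm_real, Real.norm_eq_abs, Real.abs_exp]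
      exact Real.exp_le_exp.2 (mul_le_mul_of_nonneg_left ht hc)
    have b2 : ‖m (ex (-c)) (u n (i + 2))‖ ≤
        Real.exp (-c * (((i : ℕ) + 2 : ℝ) / (n + 2))) * ‖u n (i + 2)‖ := by
      refine norm_m_u_le n (i + 2) (by omega) _ _ fun t ht _ => ?_
      rw [ex_apply, Complex.norm_real, Real.norm_eq_abs, Real.abs_exp]
      push_cast at ht
      refine Real.exp_le_exp.2 ?_
      have := mul_le_mul_of_nonneg_left ht hc
      linarith
    rw [norm_smul, Complex.norm_real, Real.norm_eq_abs, abs_of_pos h0]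
    have n1 := norm_u n i (by omega)
    have n2 := norm_u n (i + 2) (by omega)
    have n3 : ‖u n i‖ * ‖u n (i + 2)‖ = 1 / ((n : ℝ) + 2) := by
      have : (‖u n i‖ * ‖u n (i + 2)‖) ^ 2 = (1 / ((n : ℝ) + 2)) ^ 2 := by
        rw [mul_pow, n1, n2]; ring
      exact (sq_eq_sq₀ (by positivity) (by positivity)).1 this
    calc ‖m (ex c) (u n i)‖ * (((n : ℝ) + 2) * ‖m (ex (-c)) (u n (i + 2))‖)
        ≤ (Real.exp (c * (((i : ℕ) + 1) / (n + 2))) * ‖u n i‖) * (((n : ℝ) + 2) *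
          (Real.exp (-c * (((i : ℕ) + 2 : ℝ) / (n + 2))) * ‖u n (i + 2)‖)) := by
          gcongr
      _ = (Real.exp (c * (((i : ℕ) + 1) / (n + 2))) *
          Real.exp (-c * (((i : ℕ) + 2 : ℝ) / (n + 2)))) *
          (((n : ℝ) + 2) * (‖u n i‖ * ‖u n (i + 2)‖)) := by ring
      _ = Real.exp (-c / (n + 2)) := by
          rw [n3, ← Real.exp_add, mul_one_div_cancel h0.ne', mul_one]
          congr 1
          field_simp
          ring

lemma kk_norm_le_one (n : ℕ) (c : ℝ) (hc : 0 ≤ c) : ‖kk n c‖ ≤ 1 := by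
  refine (kk_norm n c hc).trans ?_
  rw [Real.exp_le_one_iff]
  have h0 : (0 : ℝ) < n + 2 := by positivity
  exact div_nonpos_of_nonpos_of_nonneg (by linarith) h0.le

lemma K0_norm_le_one (n : ℕ) : ‖K0 n‖ ≤ 1 := by
  have h1 : kk n 0 = K0 n := by
    ext1 f
    rw [kk_apply, neg_zero, ex_zero, m_one, m_one]
  rw [← h1]
  exact kk_norm_le_one n 0 le_rfl

lemma inner_u_m_one (n i : ℕ) (hi : i < n + 2) (ψ : C(unitInterval, ℂ)) :
    inner ℂ (u n i) (m ψ one) = inner ℂ (u n i) (m ψ (u n i)) := by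
  rw [← sum_u_one n, map_sum, inner_sum]
  refine Finset.sum_eq_single i (fun j _ hj => ?_) ?_
  · have := m_u_orth n (Ne.symm hj) 1 ψ
    rwa [m_one] at this
  · intro h; exact absurd (Finset.mem_range.2 hi) h

lemma m_const_smul (φ : C(unitInterval, ℂ)) (a : ℂ) (f : E) :
    m (φ - a • 1) f = m φ f - a • f := by
  rw [map_sub, map_smul, sub_apply, smul_apply, m_one]

lemma K0_tendsto_aux (ψ : C(unitInterval, ℂ)) (ε : ℝ) (hε : 0 < ε) :
    ∃ N : ℕ, ∀ n ≥ N, ‖m ψ one - K0 n (m ψ one)‖ ≤ 2 * ‖ψ‖ * Real.sqrt (1 / (n + 2)) + ε := by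
  have huc : UniformContinuous ψ := CompactSpace.uniformContinuous_of_continuous ψ.continuous
  obtain ⟨δ, hδ, hd⟩ := (Metric.uniformContinuous_iff.1 huc) ε hε
  obtain ⟨N, hN⟩ := exists_nat_gt (3 / δ)
  refine ⟨N, fun n hn => ?_⟩
  have h0 : (0 : ℝ) < n + 2 := by positivity
  have hnN : (N : ℝ) ≤ n := by exact_mod_cast hn
  have h3 : 3 / ((n : ℝ) + 2) < δ := by
    rw [div_lt_iff₀ h0]
    rw [div_lt_iff₀ hδ] at hN
    nlinarith
  set c : ℕ → ℂ := fun i => (((n : ℝ) + 2 : ℝ) : ℂ) * inner ℂ (u n i) (m ψ one) with hc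
  -- decomposition
  have e1 : m ψ one = (∑ i : Fin n, m ψ (u n (i + 2))) + (m ψ (u n 1) + m ψ (u n 0)) := by
    conv_lhs => rw [← sum_u_one n, map_sum]
    rw [Finset.sum_range_succ', Finset.sum_range_succ', add_assoc]
    rw [← Finset.sum_range (fun i => m ψ (u n (i + 2)))]
  have e2 : K0 n (m ψ one) = ∑ i : Fin n, c i • u n (i + 2) := by
    rw [K0_apply]
    refine Finset.sum_congr rfl fun i _ => ?_
    rw [hc, mul_smul]
  have e3 : m ψ one - K0 n (m ψ one) =
      (∑ i : Fin n, m (ψ - c i • 1) (u n (i + 2))) + (m ψ (u n 1) + m ψ (u n 0)) := by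
    rw [e2]
    conv_lhs => rw [e1]
    simp only [m_const_smul, Finset.sum_sub_distrib]
    abel
  -- the coefficients are close to the values
  have e4 : ∀ i : Fin n, ∀ t : unitInterval, (((i : ℕ) + 2 : ℕ) : ℝ) / (n + 2) ≤ t →
      (t : ℝ) ≤ ((((i : ℕ) + 2 : ℕ) : ℝ) + 1) / (n + 2) → ‖(ψ - c i • 1) t‖ ≤ ε := by
    intro i t ht1 ht2
    have hi : (i : ℕ) < n := i.2
    have n1 := norm_u n i (by omega)
    have hu : inner ℂ (u n i) (u n i) = (1 / ((n : ℝ) + 2) : ℝ) := by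
      rw [inner_self_eq_norm_sq_to_K, ← n1]
      push_cast
      rfl
    have f1 : c i - ψ t = (((n : ℝ) + 2 : ℝ) : ℂ) *
        inner ℂ (u n i) (m (ψ - ψ t • 1) (u n i)) := by
      rw [m_const_smul, inner_sub_right, inner_smul_right, hu, hc]
      simp only
      rw [inner_u_m_one n i (by omega)]
      have : (((n : ℝ) + 2 : ℝ) : ℂ) ≠ 0 := by exact_mod_cast h0.ne'
      push_cast at this ⊢
      field_simp
    have f2 : ‖m (ψ - ψ t • 1) (u n i)‖ ≤ ε * ‖u n i‖ := by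
      refine norm_m_u_le n i (by omega) _ _ fun s hs1 hs2 => ?_
      have : dist s t < δ := by
        rw [Subtype.dist_eq, Real.dist_eq, abs_lt]
        push_cast at ht1 ht2
        constructor
        · have : ((i : ℕ) : ℝ) / (n + 2) - (((i : ℕ) : ℝ) + 2 + 1) / (n + 2) = - (3 / (n + 2)) := by
            field_simp; ring
          linarith
        · have : (((i : ℕ) : ℝ) + 1) / (n + 2) - (((i : ℕ) : ℝ) + 2) / (n + 2) ≤ 0 := by
            rw [← sub_div]
            exact div_nonpos_of_nonpos_of_nonneg (by linarith) h0.le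
          linarith
      have := hd this
      rw [dist_eq_norm] at this
      simpa using this.le
    have f3 : ‖c i - ψ t‖ ≤ ε := by
      rw [f1, norm_mul, Complex.norm_real, Real.norm_eq_abs, abs_of_pos h0]
      calc ((n : ℝ) + 2) * ‖inner ℂ (u n i) (m (ψ - ψ t • 1) (u n i))‖
          ≤ ((n : ℝ) + 2) * (‖u n i‖ * (ε * ‖u n i‖)) := by
            gcongr
            exact (norm_inner_le_norm _ _).trans (mul_le_mul_of_nonneg_left f2 (norm_nonneg _))
        _ = ((n : ℝ) + 2) * ‖u n i‖ ^ 2 * ε := by ring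
        _ = ε := by rw [n1, mul_one_div_cancel h0.ne', one_mul]
    rw [norm_sub_rev] at f3
    simpa using f3
  have e5 : ‖∑ i : Fin n, m (ψ - c i • 1) (u n (i + 2))‖ ≤ ε := by
    have g1 : ‖∑ i : Fin n, m (ψ - c i • 1) (u n (i + 2))‖ ^ 2 ≤ ε ^ 2 := by
      rw [norm_sq_sum_orth]
      · calc ∑ i : Fin n, ‖m (ψ - c i • 1) (u n (i + 2))‖ ^ 2
            ≤ ∑ i : Fin n, ε ^ 2 * (1 / ((n : ℝ) + 2)) := by
              refine Finset.sum_le_sum fun i _ => ?_
              have hi : (i : ℕ) < n := i.2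
              have g2 := norm_m_u_le n (i + 2) (by omega) (ψ - c i • 1) ε (e4 i)
              calc ‖m (ψ - c i • 1) (u n (i + 2))‖ ^ 2 ≤ (ε * ‖u n (i + 2)‖) ^ 2 :=
                    pow_le_pow_left₀ (norm_nonneg _) g2 2
                _ = ε ^ 2 * (1 / ((n : ℝ) + 2)) := by
                    rw [mul_pow, norm_u n (i + 2) (by omega)]
          _ = ε ^ 2 * ((n : ℝ) / (n + 2)) := by
              rw [Finset.sum_const, Finset.card_univ, Fintype.card_fin, nsmul_eq_mul]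
              ring
          _ ≤ ε ^ 2 * 1 := by
              gcongr
              rw [div_le_one h0]; linarith
          _ = ε ^ 2 := mul_one _
      · intro i _ j _ hij
        exact m_u_orth n (fun h => hij (Fin.ext (by omega))) _ _
    exact le_of_sq_le_sq g1 hε.le
  have e6 : ∀ j, j < n + 2 → ‖m ψ (u n j)‖ ≤ ‖ψ‖ * Real.sqrt (1 / (n + 2)) := by
    intro j hj
    have g1 := norm_m_u_le n j hj ψ ‖ψ‖ fun t _ _ => ψ.norm_coe_le_norm t
    rwa [← norm_u n j hj, Real.sqrt_sq (norm_nonneg _)]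
  rw [e3]
  have h61 := e6 1 (by omega)
  have h60 := e6 0 (by omega)
  calc _ ≤ ‖∑ i : Fin n, m (ψ - c i • 1) (u n (i + 2))‖ + (‖m ψ (u n 1)‖ + ‖m ψ (u n 0)‖) :=
        (norm_add_le _ _).trans (add_le_add_right (norm_add_le _ _) _)
    _ ≤ _ := by linarith

lemma K0_tendsto (f : E) : Filter.Tendsto (fun n => K0 n f) Filter.atTop (nhds f) := by
  refine tendsto_of_dense K0 1 K0_norm_le_one _ dense_m_one ?_ f
  rintro _ ⟨ψ, rfl⟩
  rw [Metric.tendsto_atTop]
  intro ε hε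
  obtain ⟨N, hN⟩ := K0_tendsto_aux ψ (ε / 2) (by positivity)
  have hlim : Filter.Tendsto (fun n : ℕ => 2 * ‖ψ‖ * Real.sqrt (1 / ((n : ℝ) + 2)))
      Filter.atTop (nhds 0) := by
    have h1 : Filter.Tendsto (fun n : ℕ => 1 / ((n : ℝ) + 2)) Filter.atTop (nhds 0) := by
      have := tendsto_one_div_add_atTop_nhds_zero_nat (𝕜 := ℝ)
      refine (this.comp (Filter.tendsto_add_atTop_nat 1)).congr fun n => ?_
      simp only [Function.comp]
      push_cast
      ring_nf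
    have h2 := (Real.continuous_sqrt.tendsto 0).comp h1
    rw [Real.sqrt_zero] at h2
    simpa using h2.const_mul (2 * ‖ψ‖)
  obtain ⟨N', hN'⟩ := (Metric.tendsto_atTop.1 hlim) (ε / 2) (by positivity)
  refine ⟨max N N', fun n hn => ?_⟩
  have h1 := hN n (le_trans (le_max_left _ _) hn)
  have h2 := hN' n (le_trans (le_max_right _ _) hn)
  rw [Real.dist_eq, sub_zero, abs_of_nonneg (by positivity)] at h2
  rw [dist_comm, dist_eq_norm]
  linarith

lemma kk_tendsto (c : ℝ) (f : E) :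
    Filter.Tendsto (fun n => kk n c f) Filter.atTop (nhds f) := by
  have h1 := ((m (ex (-c))).continuous.tendsto _).comp (K0_tendsto (m (ex c) f))
  have h2 : m (ex (-c)) (m (ex c) f) = f := by
    rw [← m_mul, ex_mul, neg_add_cancel, ex_zero, m_one]
  rw [h2] at h1
  exact h1

end Pool.Agent.KS6_96.Csl
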