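import Mathlib
import Pool.Agent.KS6_96.Csl.CslK

open scoped InnerProduct ENNReal
open ContinuousLinearMap

namespace Pool.Agent.KS6_96.Csl

section Diag

variable {ι : Type*} {F : Type*} [NormedAddCommGroup F] [InnerProductSpace ℂ F]

lemma summable_sq (f : lp (fun _ : ι => F) 2) : Summable (fun i => ‖f i‖ ^ 2) := by
  have := (lp.memℓp f).summable (by norm_num)
  simpa using this

lemma norm_sq_eq (f : lp (fun _ : ι => F) 2) : ‖f‖ ^ 2 = ∑' i, ‖f i‖ ^ 2 := by
  have := lp.norm_rpow_eq_tsum (p := 2) (by norm_num) f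
  simpa using this

lemma memℓp_of_summable_sq {f : ∀ _ : ι, F} (h : Summable (fun i => ‖f i‖ ^ 2)) :
    Memℓp f 2 := by
  refine memℓp_gen ?_
  simpa using h

/-- diagonal operators. -/
noncomputable def diag (D : ι → (F →L[ℂ] F)) (h : ∃ C, ∀ i, ‖D i‖ ≤ C) :
    lp (fun _ : ι => F) 2 →L[ℂ] lp (fun _ : ι => F) 2 :=
  LinearMap.mkContinuousOfExistsBound
    { toFun := fun f => ⟨fun i => D i (f i), by
        obtain ⟨C, hC⟩ := h
        refine memℓp_of_summable_sq ?_
        refine Summable.of_nonneg_of_le (fun i => by positivity) (fun i => ?_)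
          ((summable_sq f).mul_left (C ^ 2))
        rw [← mul_pow]
        exact pow_le_pow_left₀ (norm_nonneg _) (((D i).le_opNorm _).trans
          (mul_le_mul_of_nonneg_right (hC i) (norm_nonneg _))) 2⟩
      map_add' := fun f g => by
        ext i
        simp only [lp.coeFn_add, Pi.add_apply, map_add]
      map_smul' := fun a f => by
        ext i
        simp [map_smul] } (by
    obtain ⟨C, hC⟩ := h
    refine ⟨|C|, fun f => ?_⟩
    refine le_of_sq_le_sq ?_ (by positivity)
    rw [norm_sq_eq, mul_pow, norm_sq_eq, ← tsum_mul_left]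
    refine Summable.tsum_le_tsum (fun i => ?_) (summable_sq _) ((summable_sq f).mul_left _)
    rw [← mul_pow]
    exact pow_le_pow_left₀ (norm_nonneg _) (((D i).le_opNorm _).trans
      (mul_le_mul_of_nonneg_right ((hC i).trans (le_abs_self C)) (norm_nonneg _))) 2)

@[simp] lemma diag_apply (D : ι → (F →L[ℂ] F)) (h : ∃ C, ∀ i, ‖D i‖ ≤ C)
    (f : lp (fun _ : ι => F) 2) (i : ι) : diag D h f i = D i (f i) := rfl

lemma norm_diag_le (D : ι → (F →L[ℂ] F)) (h : ∃ C, ∀ i, ‖D i‖ ≤ C) (C : ℝ) (hC0 : 0 ≤ C)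
    (hC : ∀ i, ‖D i‖ ≤ C) : ‖diag D h‖ ≤ C := by
  refine ContinuousLinearMap.opNorm_le_bound _ hC0 fun f => ?_
  refine le_of_sq_le_sq ?_ (by positivity)
  rw [norm_sq_eq, mul_pow, norm_sq_eq, ← tsum_mul_left]
  refine Summable.tsum_le_tsum (fun i => ?_) (summable_sq _) ((summable_sq f).mul_left _)
  rw [← mul_pow, diag_apply]
  exact pow_le_pow_left₀ (norm_nonneg _) (((D i).le_opNorm _).trans
    (mul_le_mul_of_nonneg_right (hC i) (norm_nonneg _))) 2

lemma diag_inner [CompleteSpace F] (D : ι → (F →L[ℂ] F)) (h : ∃ C, ∀ i, ‖D i‖ ≤ C)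
    (h' : ∃ C, ∀ i, ‖star (D i)‖ ≤ C) (f g : lp (fun _ : ι => F) 2) :
    inner ℂ (diag D h f) g = inner ℂ f (diag (fun i => star (D i)) h' g) := by
  rw [lp.inner_eq_tsum, lp.inner_eq_tsum]
  refine tsum_congr fun i => ?_
  rw [diag_apply, diag_apply, ContinuousLinearMap.star_eq_adjoint,
    ContinuousLinearMap.adjoint_inner_right]

/-- reindexing operators. -/
noncomputable def reidx (σ : ι ≃ ι) : lp (fun _ : ι => F) 2 →L[ℂ] lp (fun _ : ι => F) 2 :=
  LinearMap.mkContinuous
    { toFun := fun f => ⟨fun i => f (σ i), by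
        refine memℓp_of_summable_sq ?_
        exact (σ.summable_iff (f := fun i => ‖f i‖ ^ 2)).2 (summable_sq f)⟩
      map_add' := fun f g => by
        ext i
        simp only [lp.coeFn_add, Pi.add_apply]
      map_smul' := fun a f => by
        ext i
        simp } 1 (fun f => by
    refine le_of_sq_le_sq ?_ (by positivity)
    rw [norm_sq_eq, mul_pow, norm_sq_eq, one_pow, one_mul]
    exact (σ.tsum_eq (fun i => ‖f i‖ ^ 2)).le)

@[simp] lemma reidx_apply (σ : ι ≃ ι) (f : lp (fun _ : ι => F) 2) (i : ι) :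
    reidx σ f i = f (σ i) := rfl

lemma reidx_inner (σ : ι ≃ ι) (hσ : ∀ i, σ (σ i) = i) (f g : lp (fun _ : ι => F) 2) :
    inner ℂ (reidx σ f) g = inner ℂ f (reidx σ g) := by
  rw [lp.inner_eq_tsum, lp.inner_eq_tsum]
  rw [← σ.tsum_eq (fun i => inner ℂ (f i) (reidx σ g i))]
  refine tsum_congr fun i => ?_
  rw [reidx_apply, reidx_apply, hσ]

/-- A diagonal operator with compact entries tending to zero is compact. -/
lemma diag_compact [CompleteSpace F] [DecidableEq ι] (D : ι → (F →L[ℂ] F))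
    (h : ∃ C, ∀ i, ‖D i‖ ≤ C)
    (hc : ∀ i, IsCompactOperator (D i))
    (h0 : ∀ ε > 0, ∃ s : Finset ι, ∀ i ∉ s, ‖D i‖ ≤ ε) : IsCompactOperator (diag D h) := by
  have hcl : IsClosed {f : lp (fun _ : ι => F) 2 →L[ℂ] lp (fun _ : ι => F) 2 |
      IsCompactOperator f} := isClosed_setOfPred_isCompactOperator
  have hmem : diag D h ∈ closure {f : lp (fun _ : ι => F) 2 →L[ℂ] lp (fun _ : ι => F) 2 |
      IsCompactOperator f} := by
    rw [Metric.mem_closure_iff]
    intro ε hε
    obtain ⟨s, hs⟩ := h0 (ε / 2) (by positivity)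
    refine ⟨∑ i ∈ s, (lp.singleContinuousLinearMap ℂ (fun _ : ι => F) 2 i) ∘L (D i) ∘L
      (lp.evalCLM ℂ (fun _ : ι => F) 2 i), ?_, ?_⟩
    · exact isCompactOperator_sum s _ fun i _ =>
        ((hc i).comp_clm (lp.evalCLM ℂ (fun _ : ι => F) 2 i)).clm_comp
          (lp.singleContinuousLinearMap ℂ (fun _ : ι => F) 2 i)
    · have hb : ∃ C, ∀ i, ‖(if i ∈ s then (0 : F →L[ℂ] F) else D i)‖ ≤ C := by
        refine ⟨ε / 2, fun i => ?_⟩
        split_ifs with hi
        · rw [norm_zero]; positivity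
        · exact hs i hi
      have e1 : diag D h - ∑ i ∈ s, (lp.singleContinuousLinearMap ℂ (fun _ : ι => F) 2 i) ∘L
          (D i) ∘L (lp.evalCLM ℂ (fun _ : ι => F) 2 i) =
          diag (fun i => if i ∈ s then (0 : F →L[ℂ] F) else D i) hb := by
        ext f i
        have e2 : (∑ i ∈ s, (lp.singleContinuousLinearMap ℂ (fun _ : ι => F) 2 i) ∘L
          (D i) ∘L (lp.evalCLM ℂ (fun _ : ι => F) 2 i)) f =
            ∑ j ∈ s, lp.single 2 j (D j (f j)) := by
          simp only [sum_apply]
          rfl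
        rw [sub_apply, e2]
        change (diag D h f) i - (∑ j ∈ s, lp.single 2 j (D j (f j)) : lp (fun _ : ι => F) 2) i = _
        rw [diag_apply, diag_apply, lp.coeFn_sum, Finset.sum_apply]
        by_cases hi : i ∈ s
        · rw [Finset.sum_eq_single i, lp.single_apply_self, if_pos hi]
          · simp
          · intro j _ hji
            exact lp.single_apply_ne 2 j _ (Ne.symm hji)
          · intro h; exact absurd hi h
        · rw [Finset.sum_eq_zero, if_neg hi, sub_zero]
          intro j hj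
          refine lp.single_apply_ne 2 j _ ?_
          rintro rfl
          exact hi hj
      rw [dist_eq_norm, e1]
      refine lt_of_le_of_lt (norm_diag_le _ _ (ε / 2) (by positivity) fun i => ?_)
        (half_lt_self hε)
      split_ifs with hi
      · rw [norm_zero]; positivity
      · exact hs i hi
  exact hcl.closure_subset hmem

/-- Strong convergence of diagonal operators. -/
lemma diag_tendsto (D : ℕ → ι → (F →L[ℂ] F)) (hD : ∀ n i, ‖D n i‖ ≤ 1)
    (hlim : ∀ i x, Filter.Tendsto (fun n => D n i x) Filter.atTop (nhds x))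
    (f : lp (fun _ : ι => F) 2) :
    Filter.Tendsto (fun n => diag (D n) ⟨1, hD n⟩ f) Filter.atTop (nhds f) := by
  classical
  have hd : Dense {g : lp (fun _ : ι => F) 2 | ∃ (s : Finset ι) (v : ι → F),
      g = ∑ i ∈ s, lp.single 2 i (v i)} := by
    intro g
    have := lp.hasSum_single (p := 2) (by norm_num) g
    exact mem_closure_of_tendsto this (Filter.Eventually.of_forall fun s => ⟨s, fun i => g i, rfl⟩)
  refine tendsto_of_dense (fun n => diag (D n) ⟨1, hD n⟩) 1
    (fun n => norm_diag_le _ _ 1 zero_le_one (hD n)) _ hd ?_ f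
  rintro _ ⟨s, v, rfl⟩
  simp only [map_sum]
  refine tendsto_finsetSum s fun i _ => ?_
  have e1 : ∀ n, diag (D n) ⟨1, hD n⟩ (lp.single 2 i (v i)) = lp.single 2 i (D n i (v i)) := by
    intro n
    ext j
    rw [diag_apply]
    by_cases hj : j = i
    · subst hj
      rw [lp.single_apply_self, lp.single_apply_self]
    · rw [lp.single_apply_ne 2 i _ hj, lp.single_apply_ne 2 i _ hj, map_zero]
  simp only [e1]
  exact ((lp.isometry_single (E := fun _ : ι => F) (p := 2) i).continuous.tendsto _).comp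
    (hlim i (v i))

end Diag

end Pool.Agent.KS6_96.Csl
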