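import Mathlib
import Pool.Agent.KS6_96.Csl.CslDefs
import Pool.Agent.KS6_96.Csl.CslDiag

/-!
# Commutative subspace lattices with slowly decaying weights

The construction is the one of `Helper159.CslMain` with general weights.
-/

open scoped InnerProduct ENNReal symmDiff
open ContinuousLinearMap
open Pool.Agent.KS6_96.Csl

namespace Pool.Agent.KS6_96.CslW

set_option linter.unusedSectionVars false

/-- a slowly decaying function -/
noncomputable def rr (j : ℕ) : ℝ := 1 / Real.sqrt (Real.sqrt (Real.sqrt (j + 256)))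

/-- The weights. -/
class Wt where
  /-- the weights -/
  b : ℕ → ℝ
  lt_one : ∀ j, b j < 1
  lim : Filter.Tendsto b Filter.atTop (nhds 0)
  anti : Antitone b
  low : ∀ j, rr j ≤ b j

lemma rr_pos (j : ℕ) : 0 < rr j := by unfold rr; positivity

lemma rr_sq (j : ℕ) : rr j ^ 2 = 1 / Real.sqrt (Real.sqrt (j + 256)) := by
  unfold rr
  rw [div_pow, Real.sq_sqrt (by positivity), one_pow]

variable [Wt]

/-- weights. -/
noncomputable def β (j : ℕ) : ℝ := Wt.b j

lemma β_pos (j : ℕ) : 0 < β j := (rr_pos j).trans_le (Wt.low j)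

lemma β_lt (j : ℕ) : β j < 1 := Wt.lt_one j

lemma β_anti : Antitone β := Wt.anti

/-- exponents. -/
noncomputable def κ (j : ℕ) : ℝ := -((1 / 2) * Real.log (β j))

lemma κ_pos (j : ℕ) : 0 < κ j := by
  unfold κ
  have : Real.log (β j) < 0 := Real.log_neg (β_pos j) (β_lt j)
  linarith

lemma κ_tendsto : Filter.Tendsto κ Filter.atTop Filter.atTop := by
  unfold κ
  refine Filter.tendsto_neg_atBot_atTop.comp ?_
  refine Filter.Tendsto.const_mul_atBot (by norm_num) ?_
  refine Real.tendsto_log_nhdsGT_zero.comp ?_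
  exact tendsto_nhdsWithin_iff.2 ⟨Wt.lim, Filter.Eventually.of_forall fun j => β_pos j⟩

lemma β_exp_eq (j : ℕ) : β j * Real.exp (κ j) = Real.sqrt (β j) := by
  have h0 := β_pos j
  unfold κ
  have h1 : Real.exp (-(1 / 2 * Real.log (β j))) = (Real.sqrt (β j))⁻¹ := by
    have h2 : 1 / 2 * Real.log (β j) = Real.log (Real.sqrt (β j)) := by
      rw [Real.log_sqrt h0.le]; ring
    rw [Real.exp_neg, h2, Real.exp_log (Real.sqrt_pos.2 h0)]
  rw [h1, ← div_eq_mul_inv, Real.div_sqrt]

lemma β_exp_tendsto : Filter.Tendsto (fun j => β j * Real.exp (κ j)) Filter.atTop (nhds 0) := by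
  simp only [β_exp_eq]
  have h1 : Filter.Tendsto (fun j => Real.sqrt (Wt.b j)) Filter.atTop (nhds (Real.sqrt 0)) :=
    (Real.continuous_sqrt.tendsto 0).comp Wt.lim
  rw [Real.sqrt_zero] at h1
  exact h1

lemma β_sq_not_summable : ¬ Summable (fun j => β j ^ 2) := by
  intro h
  have h1 : Summable fun j : ℕ => (1 / (((j + 256 : ℕ) : ℝ))) := by
    refine Summable.of_nonneg_of_le (fun j => by positivity) (fun j => ?_) h
    refine le_trans ?_ (pow_le_pow_left₀ (rr_pos j).le (Wt.low j) 2)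
    rw [rr_sq]
    have h2 : (1 : ℝ) ≤ j + 256 := by
      have : (0 : ℝ) ≤ j := Nat.cast_nonneg j
      linarith
    have h3 : ∀ x : ℝ, 1 ≤ x → Real.sqrt x ≤ x ∧ 1 ≤ Real.sqrt x := fun x hx => by
      have h4 : 1 ≤ Real.sqrt x := Real.one_le_sqrt.2 hx
      refine ⟨?_, h4⟩
      calc Real.sqrt x = Real.sqrt x * 1 := (mul_one _).symm
        _ ≤ Real.sqrt x * Real.sqrt x := mul_le_mul_of_nonneg_left h4 (by linarith)
        _ = x := Real.mul_self_sqrt (by linarith)
    have h5 := h3 _ h2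
    have h6 := h3 _ h5.2
    push_cast
    exact one_div_le_one_div_of_le (by linarith [h6.2]) (h6.1.trans h5.1)
  rw [summable_nat_add_iff (f := fun n : ℕ => 1 / (n : ℝ)) 256] at h1
  exact Real.not_summable_one_div_natCast h1

/-- `β exp(κ t)`. -/
noncomputable def G (j : ℕ) : C(unitInterval, ℂ) := ((β j : ℝ) : ℂ) • ex (κ j)

/-- `β⁻¹ exp(-κ t)`. -/
noncomputable def Γ (j : ℕ) : C(unitInterval, ℂ) := (((β j)⁻¹ : ℝ) : ℂ) • ex (-κ j)

lemma G_mul_Γ (j : ℕ) : G j * Γ j = 1 := by
  unfold G Γ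
  rw [smul_mul_smul_comm, ex_mul, add_neg_cancel, ex_zero, ← Complex.ofReal_mul,
    mul_inv_cancel₀ (β_pos j).ne', Complex.ofReal_one, one_smul]

lemma star_G (j : ℕ) : star (G j) = G j := by
  unfold G
  rw [star_smul, ex_star, RCLike.star_def, Complex.conj_ofReal]

lemma star_Γ (j : ℕ) : star (Γ j) = Γ j := by
  unfold Γ
  rw [star_smul, ex_star, RCLike.star_def, Complex.conj_ofReal]

lemma norm_m_apply_le (φ : C(unitInterval, ℂ)) (B : ℝ) (hB : ∀ t, ‖φ t‖ ≤ B) (f : E) :
    ‖m φ f‖ ≤ B * ‖f‖ := by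
  refine MeasureTheory.Lp.norm_le_mul_norm_of_ae_le_mul ?_
  filter_upwards [m_coe φ f] with t h1
  rw [h1, norm_mul]
  exact mul_le_mul_of_nonneg_right (hB t) (norm_nonneg _)

lemma norm_m_G_le (j : ℕ) (f : E) : ‖m (G j) f‖ ≤ (β j * Real.exp (κ j)) * ‖f‖ := by
  refine norm_m_apply_le _ _ (fun t => ?_) f
  unfold G
  rw [ContinuousMap.smul_apply, ex_apply, norm_smul, Complex.norm_real, Complex.norm_real,
    Real.norm_eq_abs, Real.norm_eq_abs, abs_of_pos (β_pos j), Real.abs_exp]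
  refine mul_le_mul_of_nonneg_left (Real.exp_le_exp.2 ?_) (β_pos j).le
  exact mul_le_of_le_one_right (κ_pos j).le t.2.2

lemma norm_m_Γ_le (j : ℕ) (f : E) : ‖m (Γ j) f‖ ≤ (β j)⁻¹ * ‖f‖ := by
  refine norm_m_apply_le _ _ (fun t => ?_) f
  unfold Γ
  rw [ContinuousMap.smul_apply, ex_apply, norm_smul, Complex.norm_real, Complex.norm_real,
    Real.norm_eq_abs, Real.norm_eq_abs, abs_of_pos (inv_pos.2 (β_pos j)), Real.abs_exp]
  refine mul_le_of_le_one_right (inv_pos.2 (β_pos j)).le ?_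
  rw [Real.exp_le_one_iff]
  have := mul_nonneg (κ_pos j).le t.2.1
  linarith

lemma m_Γ_m_G (j : ℕ) (f : E) : m (Γ j) (m (G j) f) = f := by
  rw [← m_mul, mul_comm, G_mul_Γ, m_one]

lemma m_G_m_Γ (j : ℕ) (f : E) : m (G j) (m (Γ j) f) = f := by
  rw [← m_mul, G_mul_Γ, m_one]

lemma le_norm_m_G (j : ℕ) (f : E) : β j * ‖f‖ ≤ ‖m (G j) f‖ := by
  have h1 := norm_m_Γ_le j (m (G j) f)
  rw [m_Γ_m_G] at h1
  have h2 := mul_le_mul_of_nonneg_left h1 (β_pos j).le
  rwa [← mul_assoc, mul_inv_cancel₀ (β_pos j).ne', one_mul] at h2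

lemma m_comm (φ ψ : C(unitInterval, ℂ)) (f : E) : m φ (m ψ f) = m ψ (m φ f) := by
  rw [← m_mul, ← m_mul, mul_comm]

/-- the Hilbert space. -/
noncomputable abbrev HH := lp (fun _ : Finset ℕ => E) 2

/-- flipping one index. -/
def fl (j : ℕ) : Finset ℕ ≃ Finset ℕ :=
  Function.Involutive.toPerm (fun A => A ∆ {j}) (fun A => symmDiff_symmDiff_cancel_right {j} A)

lemma fl_apply (j : ℕ) (A : Finset ℕ) : fl j A = A ∆ {j} := rfl

lemma fl_fl (j : ℕ) (A : Finset ℕ) : fl j (fl j A) = A := by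
  rw [fl_apply, fl_apply, symmDiff_symmDiff_cancel_right]

lemma fl_comm (i j : ℕ) (A : Finset ℕ) : fl i (fl j A) = fl j (fl i A) := by
  rw [fl_apply, fl_apply, fl_apply, fl_apply, symmDiff_right_comm]

lemma mem_fl {i j : ℕ} (hij : i ≠ j) (A : Finset ℕ) : j ∈ fl i A ↔ j ∈ A := by
  rw [fl_apply, Finset.mem_symmDiff]
  simp [Ne.symm hij]

lemma mem_fl_self (j : ℕ) (A : Finset ℕ) : j ∈ fl j A ↔ j ∉ A := by
  rw [fl_apply, Finset.mem_symmDiff]
  simp

lemma fl_notMem {j : ℕ} {A : Finset ℕ} (h : j ∉ A) : fl j A = insert j A := by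
  rw [fl_apply]
  ext i
  rw [Finset.mem_symmDiff, Finset.mem_insert, Finset.mem_singleton]
  constructor
  · rintro (⟨h1, _⟩ | ⟨h1, _⟩)
    · exact Or.inr h1
    · exact Or.inl h1
  · rintro (rfl | h1)
    · exact Or.inr ⟨rfl, h⟩
    · exact Or.inl ⟨h1, fun h2 => h (h2 ▸ h1)⟩

lemma fl_insert {j : ℕ} {A : Finset ℕ} (h : j ∉ A) : fl j (insert j A) = A := by
  rw [← fl_notMem h, fl_fl]

/-- diagonal part of `X j`. -/
noncomputable def Sd (j : ℕ) (A : Finset ℕ) : E →L[ℂ] E := if j ∈ A then m (Γ j - G j) else 0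

lemma Sd_bdd (j : ℕ) : ∃ C, ∀ A, ‖Sd j A‖ ≤ C := by
  refine ⟨‖m (Γ j - G j)‖, fun A => ?_⟩
  unfold Sd
  split_ifs
  · exact le_rfl
  · rw [norm_zero]; exact norm_nonneg _

/-- the operators `X j`. -/
noncomputable def X (j : ℕ) : HH →L[ℂ] HH := reidx (fl j) + diag (Sd j) (Sd_bdd j)

lemma X_apply (j : ℕ) (f : HH) (A : Finset ℕ) : X j f A = f (fl j A) + Sd j A (f A) := rfl

/-- multiplication by functions of `t`. -/
noncomputable def MM (φ : C(unitInterval, ℂ)) : HH →L[ℂ] HH :=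
  diag (fun _ => m φ) ⟨‖m φ‖, fun _ => le_rfl⟩

lemma MM_apply (φ : C(unitInterval, ℂ)) (f : HH) (A : Finset ℕ) : MM φ f A = m φ (f A) := rfl

/-- the commutative self-adjoint family. -/
def DD : Set (HH →L[ℂ] HH) := {T | (∃ φ, T = MM φ) ∨ ∃ j, T = X j}

lemma Sd_m (j : ℕ) (A : Finset ℕ) (φ : C(unitInterval, ℂ)) (f : E) :
    Sd j A (m φ f) = m φ (Sd j A f) := by
  unfold Sd
  split_ifs
  · exact m_comm _ _ _
  · simp

lemma Sd_Sd (i j : ℕ) (A B : Finset ℕ) (f : E) : Sd i A (Sd j B f) = Sd j B (Sd i A f) := by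
  unfold Sd
  split_ifs
  · exact m_comm _ _ _
  all_goals simp

lemma MM_X (φ : C(unitInterval, ℂ)) (j : ℕ) : MM φ * X j = X j * MM φ := by
  ext1 f
  refine lp.ext (funext fun A => ?_)
  change MM φ (X j f) A = X j (MM φ f) A
  rw [MM_apply, X_apply, X_apply, MM_apply, MM_apply, map_add, Sd_m]

lemma X_X (i j : ℕ) : X i * X j = X j * X i := by
  ext1 f
  refine lp.ext (funext fun A => ?_)
  change X i (X j f) A = X j (X i f) A
  by_cases hij : i = j
  · rw [hij]
  rw [X_apply, X_apply, X_apply, X_apply, X_apply, X_apply, map_add, map_add, fl_comm j i,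
    Sd_Sd i j]
  have h1 : Sd j (fl i A) = Sd j A := by
    unfold Sd; simp only [mem_fl hij]
  have h2 : Sd i (fl j A) = Sd i A := by
    unfold Sd; simp only [mem_fl (Ne.symm hij)]
  rw [h1, h2]
  abel

lemma DD_comm : ∀ A ∈ DD, ∀ B ∈ DD, A * B = B * A := by
  rintro A (⟨φ, rfl⟩ | ⟨i, rfl⟩) B (⟨ψ, rfl⟩ | ⟨j, rfl⟩)
  · ext1 f
    refine lp.ext (funext fun A => ?_)
    exact m_comm _ _ _
  · exact MM_X φ j
  · exact (MM_X ψ i).symm
  · exact X_X i j

lemma star_MM (φ : C(unitInterval, ℂ)) : star (MM φ) = MM (star φ) := by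
  rw [ContinuousLinearMap.star_eq_adjoint]
  symm
  rw [ContinuousLinearMap.eq_adjoint_iff]
  intro f g
  rw [MM, MM, diag_inner _ _ ⟨‖star (m (star φ))‖, fun _ => le_rfl⟩]
  congr 2
  simp only [m_star, star_star]

lemma star_X (j : ℕ) : star (X j) = X j := by
  rw [ContinuousLinearMap.star_eq_adjoint]
  symm
  rw [ContinuousLinearMap.eq_adjoint_iff]
  intro f g
  have hs : ∀ A, star (Sd j A) = Sd j A := by
    intro A
    unfold Sd
    split_ifs
    · rw [m_star, star_sub, star_Γ, star_G]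
    · exact star_zero _
  have h' : ∃ C, ∀ A, ‖star (Sd j A)‖ ≤ C := by
    simp only [hs]
    exact Sd_bdd j
  unfold X
  rw [add_apply, add_apply, inner_add_left, inner_add_right, reidx_inner _ (fl_fl j),
    diag_inner _ _ h']
  simp only [hs]

lemma DD_star : ∀ A ∈ DD, star A ∈ DD := by
  rintro A (⟨φ, rfl⟩ | ⟨i, rfl⟩)
  · exact Or.inl ⟨star φ, star_MM φ⟩
  · exact Or.inr ⟨i, star_X i⟩

/-- the cyclic vector. -/
noncomputable def Ω : HH := lp.single 2 (∅ : Finset ℕ) one

lemma MM_single (φ : C(unitInterval, ℂ)) (A : Finset ℕ) (v : E) :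
    MM φ (lp.single 2 A v) = lp.single 2 A (m φ v) := by
  ext B
  rw [MM_apply]
  by_cases h : B = A
  · subst h
    rw [lp.single_apply_self, lp.single_apply_self]
  · rw [lp.single_apply_ne 2 A _ h, lp.single_apply_ne 2 A _ h, map_zero]

lemma X_single {j : ℕ} {A : Finset ℕ} (hj : j ∉ A) (v : E) :
    X j (lp.single 2 A v) = lp.single 2 (insert j A) v := by
  ext B
  rw [X_apply]
  by_cases h : B = insert j A
  · subst h
    rw [fl_insert hj, lp.single_apply_self, lp.single_apply_self, lp.single_apply_ne, map_zero,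
      add_zero]
    intro h
    exact hj (h ▸ Finset.mem_insert_self j A)
  · rw [lp.single_apply_ne 2 (insert j A) _ h, lp.single_apply_ne]
    · rw [zero_add]
      by_cases h2 : B = A
      · subst h2
        unfold Sd
        simp [hj]
      · rw [lp.single_apply_ne 2 A _ h2, map_zero]
    · intro h3
      apply h
      rw [← fl_notMem hj, ← h3, fl_fl]

lemma single_mem (A : Finset ℕ) (φ : C(unitInterval, ℂ)) :
    ∃ T ∈ Set.centralizer (Set.centralizer DD), T Ω = lp.single 2 A (m φ one) := by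
  have hsub : DD ⊆ Set.centralizer (Set.centralizer DD) := Set.subset_centralizer_centralizer
  induction A using Finset.induction_on with
  | empty => exact ⟨MM φ, hsub (Or.inl ⟨φ, rfl⟩), MM_single φ ∅ one⟩
  | insert j A hj ih =>
    obtain ⟨T, hT, hTΩ⟩ := ih
    refine ⟨X j * T, Set.mul_mem_centralizer (hsub (Or.inr ⟨j, rfl⟩)) hT, ?_⟩
    change X j (T Ω) = _
    rw [hTΩ, X_single hj]

lemma dense_Ω : Dense ((fun T : HH →L[ℂ] HH => T Ω) '' (Set.centralizer (Set.centralizer DD))) := by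
  set 𝒜 := Set.centralizer (Set.centralizer DD)
  let V : Submodule ℂ HH :=
    { carrier := (fun T : HH →L[ℂ] HH => T Ω) '' 𝒜
      add_mem' := by
        rintro _ _ ⟨T, hT, rfl⟩ ⟨S, hS, rfl⟩
        exact ⟨T + S, Set.add_mem_centralizer hT hS, rfl⟩
      zero_mem' := ⟨0, Set.zero_mem_centralizer, rfl⟩
      smul_mem' := by
        rintro c _ ⟨T, hT, rfl⟩
        refine ⟨c • T, ?_, rfl⟩
        intro B hB
        rw [mul_smul_comm, smul_mul_assoc, hT B hB] }
  have hV : (V : Set HH) = (fun T : HH →L[ℂ] HH => T Ω) '' 𝒜 := rfl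
  rw [← hV]
  have h1 : ∀ (A : Finset ℕ) (v : E), lp.single 2 A v ∈ V.topologicalClosure := by
    intro A v
    have hc : Continuous (fun v : E => (lp.single 2 A v : HH)) :=
      (lp.isometry_single (E := fun _ : Finset ℕ => E) (p := 2) A).continuous
    have hcl : IsClosed {v : E | (lp.single 2 A v : HH) ∈ V.topologicalClosure} :=
      (Submodule.isClosed_topologicalClosure V).preimage hc
    have hsub : Set.range (fun φ : C(unitInterval, ℂ) => m φ one) ⊆
        {v : E | (lp.single 2 A v : HH) ∈ V.topologicalClosure} := by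
      rintro _ ⟨φ, rfl⟩
      obtain ⟨T, hT, hTΩ⟩ := single_mem A φ
      exact V.le_topologicalClosure ⟨T, hT, hTΩ⟩
    have := closure_minimal hsub hcl
    rw [dense_m_one.closure_range] at this
    exact this (Set.mem_univ v)
  intro f
  have h2 := lp.hasSum_single (p := 2) (by norm_num) f
  have h3 : f ∈ V.topologicalClosure := by
    refine (Submodule.isClosed_topologicalClosure V).mem_of_tendsto h2
      (Filter.Eventually.of_forall fun s => Submodule.sum_mem _ fun i _ => h1 i _)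
  exact h3

/-- total exponent. -/
noncomputable def cA (A : Finset ℕ) : ℝ := ∑ j ∈ A, κ j

lemma cA_nonneg (A : Finset ℕ) : 0 ≤ cA A := Finset.sum_nonneg fun j _ => (κ_pos j).le

lemma cA_insert {j : ℕ} {A : Finset ℕ} (h : j ∉ A) : cA (insert j A) = cA A + κ j := by
  unfold cA
  rw [Finset.sum_insert h, add_comm]

/-- the compact operators. -/
noncomputable def Kn (n : ℕ) : HH →L[ℂ] HH :=
  diag (fun A => kk n (cA A)) ⟨1, fun A => kk_norm_le_one n _ (cA_nonneg A)⟩

lemma Kn_apply (n : ℕ) (f : HH) (A : Finset ℕ) : Kn n f A = kk n (cA A) (f A) := rfl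

lemma finite_cA_le (R : ℝ) : {A : Finset ℕ | cA A ≤ R}.Finite := by
  have h1 : ∃ N : ℕ, ∀ j ≥ N, R < κ j := by
    obtain ⟨N, hN⟩ := (Filter.tendsto_atTop_atTop.1 κ_tendsto) (R + 1)
    exact ⟨N, fun j hj => by have := hN j hj; linarith⟩
  obtain ⟨N, hN⟩ := h1
  refine Set.Finite.subset (Finset.finite_toSet (Finset.range N).powerset) ?_
  intro A hA
  rw [Finset.mem_coe, Finset.mem_powerset]
  intro j hj
  rw [Finset.mem_range]
  by_contra hlt
  have h2 := hN j (not_lt.1 hlt)
  have h3 : κ j ≤ cA A := Finset.single_le_sum (f := κ) (fun i _ => (κ_pos i).le) hj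
  have h4 : cA A ≤ R := hA
  linarith

lemma Kn_compact (n : ℕ) : IsCompactOperator (Kn n) := by
  refine diag_compact _ _ (fun A => kk_compact n (cA A)) fun ε hε => ?_
  have h0 : (0 : ℝ) < n + 2 := by positivity
  refine ⟨(finite_cA_le (-(n + 2) * Real.log ε)).toFinset, fun A hA => ?_⟩
  rw [Set.Finite.mem_toFinset] at hA
  have hA' : -(n + 2) * Real.log ε < cA A := not_le.1 hA
  refine (kk_norm n _ (cA_nonneg A)).trans ?_
  rw [← Real.le_log_iff_exp_le hε, div_le_iff₀ h0]
  linarith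

lemma Kn_tendsto (f : HH) : Filter.Tendsto (fun n => Kn n f) Filter.atTop (nhds f) :=
  diag_tendsto (fun n A => kk n (cA A)) (fun n A => kk_norm_le_one n _ (cA_nonneg A))
    (fun A x => kk_tendsto (cA A) x) f

lemma Kn_norm (n : ℕ) : ‖Kn n‖ ≤ 1 :=
  norm_diag_le _ _ 1 zero_le_one fun A => kk_norm_le_one n _ (cA_nonneg A)

/-- all generators. -/
def TT : Set (HH →L[ℂ] HH) := DD ∪ Set.range Kn

/-- the lattice. -/
def LL : Set (ClosedSubmodule ℂ HH) := LatS TT

theorem isCSL_LL : IsCSL LL :=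
  isCSL_latS DD TT Set.subset_union_left DD_comm DD_star Ω dense_Ω

theorem dense_LL : CompactsWeakStarDense LL :=
  compactsWeakStarDense_of_seq LL Kn
    (fun n => subset_alg_latS TT (Or.inr ⟨n, rfl⟩)) Kn_compact 1 Kn_norm Kn_tendsto

lemma continuous_eval (A : Finset ℕ) : Continuous (fun f : HH => f A) :=
  (lp.evalCLM ℂ (fun _ : Finset ℕ => E) 2 A).continuous

/-- the subspaces `N j`. -/
noncomputable def Nsub (j : ℕ) : ClosedSubmodule ℂ HH where
  carrier := {f | ∀ A, j ∉ A → f A = m (G j) (f (insert j A))}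
  add_mem' := by
    intro f g hf hg A hA
    rw [lp.coeFn_add, Pi.add_apply, Pi.add_apply, hf A hA, hg A hA, map_add]
  zero_mem' := by
    intro A _
    simp
  smul_mem' := by
    intro c f hf A hA
    rw [lp.coeFn_smul, Pi.smul_apply, Pi.smul_apply, hf A hA, map_smul]
  isClosed' := by
    have h1 : IsClosed (⋂ A : Finset ℕ, ⋂ _ : j ∉ A,
        {f : HH | f A = m (G j) (f (insert j A))}) := by
      refine isClosed_iInter fun A => isClosed_iInter fun _ => ?_
      exact isClosed_eq (continuous_eval A) ((m (G j)).continuous.comp (continuous_eval _))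
    convert h1 using 1
    ext f
    simp

lemma mem_Nsub {j : ℕ} {f : HH} :
    f ∈ Nsub j ↔ ∀ A, j ∉ A → f A = m (G j) (f (insert j A)) := Iff.rfl

lemma Nsub_mem_LL (j : ℕ) : Nsub j ∈ LL := by
  intro T hT f hf
  rw [mem_Nsub] at hf ⊢
  intro A hA
  rcases hT with (⟨φ, rfl⟩ | ⟨i, rfl⟩) | ⟨n, rfl⟩
  · rw [MM_apply, MM_apply, hf A hA, m_comm]
  · by_cases hij : i = j
    · subst hij
      rw [X_apply, X_apply, fl_notMem hA, fl_insert hA]
      have h1 : Sd i A = 0 := by unfold Sd; rw [if_neg hA]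
      have h2 : Sd i (insert i A) = m (Γ i - G i) := by
        unfold Sd; rw [if_pos (Finset.mem_insert_self i A)]
      rw [h1, h2, hf A hA, map_sub, sub_apply, zero_apply, add_zero, add_sub_cancel, m_G_m_Γ]
    · have hA' : j ∉ fl i A := by rwa [mem_fl hij]
      have h3 : fl i (insert j A) = insert j (fl i A) := by
        rw [← fl_notMem hA, ← fl_notMem hA', fl_comm]
      rw [X_apply, X_apply, h3, hf _ hA', hf A hA, map_add, Sd_m]
      congr 2
      unfold Sd
      have h4 : (i ∈ insert j A) = (i ∈ A) := by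
        rw [Finset.mem_insert]
        simp [hij]
      simp only [h4]
  · rw [Kn_apply, Kn_apply, hf A hA, cA_insert hA]
    unfold G
    rw [map_smul, smul_apply, map_smul, kk_intertwine, smul_apply]

/-- test vectors of `Nsub j`. -/
lemma test_mem {j : ℕ} {A : Finset ℕ} (hA : j ∉ A) (v : E) :
    (lp.single 2 A (m (G j) v) + lp.single 2 (insert j A) v : HH) ∈ Nsub j := by
  rw [mem_Nsub]
  intro B hB
  have hne : A ≠ insert j A := fun h => hA (h ▸ Finset.mem_insert_self j A)
  have hBne : B ≠ insert j A := fun h => hB (h ▸ Finset.mem_insert_self j A)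
  rw [lp.coeFn_add, Pi.add_apply, Pi.add_apply, lp.single_apply_ne 2 (insert j A) _ hBne,
    add_zero]
  by_cases h : B = A
  · subst h
    rw [lp.single_apply_self, lp.single_apply_self, lp.single_apply_ne 2 B _ (Ne.symm hne),
      zero_add]
  · rw [lp.single_apply_ne 2 A _ h]
    have h1 : insert j B ≠ A := fun h1 => hA (h1 ▸ Finset.mem_insert_self j B)
    have h2 : insert j B ≠ insert j A := by
      intro h2
      apply h
      have := congrArg (fun C => Finset.erase C j) h2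
      simpa [Finset.erase_insert hB, Finset.erase_insert hA] using this
    rw [lp.single_apply_ne 2 A _ h1, lp.single_apply_ne 2 (insert j A) _ h2, add_zero, map_zero]

lemma orth_relation {j : ℕ} {f : HH} (hf : ∀ g ∈ Nsub j, inner ℂ g f = 0) {A : Finset ℕ}
    (hA : j ∉ A) : f (insert j A) = - m (G j) (f A) := by
  refine ext_inner_left ℂ fun v => ?_
  have h1 := hf _ (test_mem hA v)
  rw [inner_add_left, lp.inner_single_left, lp.inner_single_left, m_inner, star_G] at h1
  rw [inner_neg_right]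
  exact (eq_neg_of_add_eq_zero_right h1)

lemma eq_zero_of_orth (J : ℕ) {f : HH} (hf : ∀ j ≥ J, ∀ g ∈ Nsub j, inner ℂ g f = 0) :
    f = 0 := by
  refine lp.ext (funext fun A => ?_)
  change f A = 0
  by_contra hne
  have hpos : 0 < ‖f A‖ := norm_pos_iff.2 hne
  -- bound on the tail of the weights
  obtain ⟨N, hN⟩ : ∃ N : ℕ, J ≤ N ∧ ∀ i ∈ A, i < N := by
    obtain ⟨M, hM⟩ := A.exists_nat_subset_range
    exact ⟨max J M, le_max_left _ _, fun i hi =>
      lt_of_lt_of_le (Finset.mem_range.1 (hM hi)) (le_max_right _ _)⟩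
  have hnot : ∀ k : ℕ, k + N ∉ A := fun k hk => by
    have := hN.2 _ hk
    omega
  have h1 : ∀ k : ℕ, β (k + N) ^ 2 * ‖f A‖ ^ 2 ≤ ‖f (insert (k + N) A)‖ ^ 2 := by
    intro k
    rw [orth_relation (hf (k + N) (by omega)) (hnot k), norm_neg, ← mul_pow]
    exact pow_le_pow_left₀ (mul_nonneg (β_pos _).le (norm_nonneg _)) (le_norm_m_G _ _) 2
  have hinj : Function.Injective (fun k : ℕ => insert (k + N) A) := by
    intro k l hkl
    have h2 : k + N ∈ insert (l + N) A := by
      have : k + N ∈ insert (k + N) A := Finset.mem_insert_self _ _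
      exact (show insert (k + N) A = insert (l + N) A from hkl) ▸ this
    rw [Finset.mem_insert] at h2
    rcases h2 with h2 | h2
    · omega
    · exact absurd h2 (hnot k)
  have h3 : Summable (fun k : ℕ => ‖f (insert (k + N) A)‖ ^ 2) :=
    (summable_sq f).comp_injective hinj
  have h4 : Summable (fun k : ℕ => β (k + N) ^ 2 * ‖f A‖ ^ 2) :=
    Summable.of_nonneg_of_le (fun k => by positivity) h1 h3
  have h5 : Summable (fun k : ℕ => β (k + N) ^ 2) := by
    have := h4.mul_right ((‖f A‖ ^ 2)⁻¹)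
    refine this.congr fun k => ?_
    field_simp
  rw [summable_nat_add_iff (f := fun j => β j ^ 2) N] at h5
  exact β_sq_not_summable h5

lemma sSup_eq_top (J : ℕ) : sSup {M : ClosedSubmodule ℂ HH | ∃ j ≥ J, M = Nsub j} = ⊤ := by
  set S := sSup {M : ClosedSubmodule ℂ HH | ∃ j ≥ J, M = Nsub j} with hS
  have h1 : S.toSubmoduleᗮ = ⊥ := by
    rw [Submodule.eq_bot_iff]
    intro f hf
    refine eq_zero_of_orth J fun j hj g hg => ?_
    have hle : Nsub j ≤ S := le_sSup ⟨j, hj, rfl⟩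
    exact (Submodule.mem_orthogonal _ _).1 hf g (hle hg)
  have h2 : S.toSubmodule = ⊤ := Submodule.orthogonal_eq_bot_iff.1 h1
  apply ClosedSubmodule.toSubmodule_injective
  rw [h2]
  rfl

lemma iInf_eq_bot (f : ℕ → ClosedSubmodule ℂ HH)
    (hf : ∀ J, f J ∈ {M : ClosedSubmodule ℂ HH | ∃ j ≥ J, M = Nsub j}) : ⨅ J, f J = ⊥ := by
  rw [eq_bot_iff]
  intro x hx
  rw [ClosedSubmodule.mem_iInf] at hx
  rw [ClosedSubmodule.mem_bot]
  refine lp.ext (funext fun A => ?_)
  change x A = 0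
  choose j hj hjN using hf
  obtain ⟨N, hN⟩ : ∃ N : ℕ, ∀ i ∈ A, i < N := by
    obtain ⟨M, hM⟩ := A.exists_nat_subset_range
    exact ⟨M, fun i hi => Finset.mem_range.1 (hM hi)⟩
  have hbound : ∀ J ≥ N, ‖x A‖ ≤ (β (j J) * Real.exp (κ (j J))) * ‖x‖ := by
    intro J hJ
    have h1 : j J ∉ A := fun h => by
      have := hN _ h
      have := hj J
      omega
    have h2 : x ∈ Nsub (j J) := by
      rw [← hjN]
      exact hx J
    rw [mem_Nsub.1 h2 A h1]
    refine (norm_m_G_le _ _).trans ?_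
    have h3 : 0 ≤ β (j J) * Real.exp (κ (j J)) := mul_nonneg (β_pos _).le (Real.exp_pos _).le
    exact mul_le_mul_of_nonneg_left (lp.norm_apply_le_norm (by norm_num) x _) h3
  have hlim : Filter.Tendsto (fun J => (β (j J) * Real.exp (κ (j J))) * ‖x‖) Filter.atTop
      (nhds 0) := by
    have h1 : Filter.Tendsto j Filter.atTop Filter.atTop :=
      Filter.tendsto_atTop_mono hj Filter.tendsto_id
    have h2 := (β_exp_tendsto.comp h1).mul_const ‖x‖
    rwa [zero_mul] at h2
  have h4 : ‖x A‖ ≤ 0 := by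
    refine ge_of_tendsto hlim ?_
    exact Filter.eventually_atTop.2 ⟨N, hbound⟩
  exact norm_le_zero_iff.1 h4

lemma Ω_ne_zero : Ω ≠ 0 := by
  intro h
  have h1 : Ω ∅ = one := lp.single_apply_self 2 _ _
  rw [h] at h1
  have h2 : (one : E) = 0 := h1.symm
  have h3 := dense_m_one
  rw [h2] at h3
  simp only [map_zero] at h3
  have h4 : u 0 0 = 0 := by
    have := h3.closure_range
    rw [Set.range_const, closure_singleton] at this
    have h5 : u 0 0 ∈ ({0} : Set E) := this ▸ Set.mem_univ _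
    exact h5
  exact u_ne_zero 0 0 (by norm_num) h4

theorem not_cd_LL : ¬ IsCompletelyDistributive LL := by
  intro h
  have h1 := h ℕ (fun J => {M : ClosedSubmodule ℂ HH | ∃ j ≥ J, M = Nsub j}) (by
    rintro J M ⟨j, _, rfl⟩
    exact Nsub_mem_LL j)
  simp only [sSup_eq_top, iInf_const] at h1
  have h2 : (⨆ f : {f : ℕ → ClosedSubmodule ℂ HH //
      ∀ J, f J ∈ {M : ClosedSubmodule ℂ HH | ∃ j ≥ J, M = Nsub j}}, ⨅ J, f.1 J) = ⊥ := by
    rw [eq_bot_iff]
    exact iSup_le fun f => (iInf_eq_bot f.1 f.2).le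
  rw [h2] at h1
  have h3 : Ω ∈ (⊤ : ClosedSubmodule ℂ HH) := trivial
  rw [h1] at h3
  exact Ω_ne_zero h3

section Sep

open TopologicalSpace

omit [Wt]

instance : SeparableSpace E := by
  have : IsSeparable (Set.univ : Set E) := by
    have h1 : IsSeparable (Set.range (fun φ : C(unitInterval, ℂ) => m φ one)) :=
      isSeparable_range (((ContinuousLinearMap.apply ℂ E one).continuous).comp m.continuous)
    have := h1.closure
    rwa [dense_m_one.closure_range] at this
  exact isSeparable_univ_iff.1 this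

instance : SeparableSpace HH := by
  have h1 : IsSeparable (⋃ s : Finset (Finset ℕ),
      Set.range (fun v : Finset ℕ → E => ∑ i ∈ s, (lp.single 2 i (v i) : HH))) := by
    refine IsSeparable.iUnion fun s => isSeparable_range ?_
    refine continuous_finsetSum s fun i _ => ?_
    exact (lp.isometry_single (E := fun _ : Finset ℕ => E) (p := 2) i).continuous.comp
      (continuous_apply i)
  have h2 : (Set.univ : Set HH) ⊆ closure (⋃ s : Finset (Finset ℕ),
      Set.range (fun v : Finset ℕ → E => ∑ i ∈ s, (lp.single 2 i (v i) : HH))) := by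
    intro f _
    refine mem_closure_of_tendsto (lp.hasSum_single (p := 2) (by norm_num) f)
      (Filter.Eventually.of_forall fun s => ?_)
    exact Set.mem_iUnion.2 ⟨s, ⟨fun i => f i, rfl⟩⟩
  exact isSeparable_univ_iff.1 (h1.closure.mono h2)

end Sep

end Pool.Agent.KS6_96.CslW
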