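import Mathlib
import Pool.Agent.KS6_96.Csl.CslW

/-!
# No Schatten class operators
-/

open scoped InnerProduct ENNReal symmDiff
open ContinuousLinearMap
open Pool.Agent.KS6_96.Csl

namespace Pool.Agent.KS6_96.CslS

section general

variable {H : Type*} [NormedAddCommGroup H] [InnerProductSpace ℂ H] [CompleteSpace H]

/-- The approximation numbers of a bounded operator: the distances to the operators of rank at
most `n`. -/
noncomputable def apn (T : H →L[ℂ] H) (n : ℕ) : ℝ :=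
  sInf {r : ℝ | ∃ F : H →L[ℂ] H, (F : H →ₗ[ℂ] H).rank ≤ n ∧ r = ‖T - F‖}

lemma apn_nonneg (T : H →L[ℂ] H) (n : ℕ) : 0 ≤ apn T n :=
  Real.sInf_nonneg (by rintro _ ⟨F, _, rfl⟩; exact norm_nonneg _)

lemma apn_lt {T : H →L[ℂ] H} {n : ℕ} {r : ℝ} (h : apn T n < r) :
    ∃ F : H →L[ℂ] H, (F : H →ₗ[ℂ] H).rank ≤ n ∧ ‖T - F‖ < r := by
  have hne : {r : ℝ | ∃ F : H →L[ℂ] H, (F : H →ₗ[ℂ] H).rank ≤ n ∧ r = ‖T - F‖}.Nonempty := by
    refine ⟨‖T - 0‖, 0, ?_, rfl⟩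
    rw [ContinuousLinearMap.coe_zero, LinearMap.rank_zero]
    exact zero_le
  obtain ⟨_, ⟨F, hF, rfl⟩, hr⟩ := exists_lt_of_csInf_lt hne h
  exact ⟨F, hF, hr⟩

/-- finite rank operators and orthonormal systems -/
lemma sum_rank (F : H →L[ℂ] H) {n : ℕ} (hr : (F : H →ₗ[ℂ] H).rank ≤ n) {ι : Type*} {e : ι → H}
    (he : Orthonormal ℂ e) (S : Finset ι) : ∑ j ∈ S, ‖F (e j)‖ ^ 2 ≤ n * ‖F‖ ^ 2 := by
  have hfd : FiniteDimensional ℂ (LinearMap.range (F : H →ₗ[ℂ] H)) := by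
    refine Module.rank_lt_aleph0_iff.1 ?_
    exact lt_of_le_of_lt hr (Cardinal.nat_lt_aleph0 n)
  have hfr : Module.finrank ℂ (LinearMap.range (F : H →ₗ[ℂ] H)) ≤ n :=
    Module.finrank_le_of_rank_le hr
  obtain ⟨b, -⟩ : ∃ b, b = stdOrthonormalBasis ℂ (LinearMap.range (F : H →ₗ[ℂ] H)) := ⟨_, rfl⟩
  have h1 : ∀ x : H, ‖F x‖ ^ 2 = ∑ k, ‖inner ℂ (adjoint F (b k : H)) x‖ ^ 2 := by
    intro x
    have h2 := b.sum_sq_norm_inner_right ⟨F x, LinearMap.mem_range_self _ x⟩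
    have h3 : ‖(⟨F x, LinearMap.mem_range_self _ x⟩ :
      LinearMap.range (F : H →ₗ[ℂ] H))‖ = ‖F x‖ := rfl
    rw [h3] at h2
    rw [← h2]
    refine Finset.sum_congr rfl fun k _ => ?_
    rw [ContinuousLinearMap.adjoint_inner_left]
    rfl
  calc ∑ j ∈ S, ‖F (e j)‖ ^ 2 = ∑ k, ∑ j ∈ S, ‖inner ℂ (e j) (adjoint F (b k : H))‖ ^ 2 := by
        rw [Finset.sum_comm]
        refine Finset.sum_congr rfl fun j _ => ?_
        rw [h1]
        refine Finset.sum_congr rfl fun k _ => ?_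
        rw [norm_inner_symm]
    _ ≤ ∑ k : Fin (Module.finrank ℂ (LinearMap.range (F : H →ₗ[ℂ] H))), ‖F‖ ^ 2 := by
        refine Finset.sum_le_sum fun k _ => ?_
        refine (he.sum_inner_products_le (adjoint F (b k : H))).trans ?_
        refine pow_le_pow_left₀ (norm_nonneg _) ?_ 2
        refine ((adjoint F).le_opNorm _).trans ?_
        have h4 : ‖((b k : LinearMap.range (F : H →ₗ[ℂ] H)) : H)‖ = 1 := b.orthonormal.1 k
        rw [h4, mul_one]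
        exact (ContinuousLinearMap.adjoint.norm_map F).le
    _ = (Module.finrank ℂ (LinearMap.range (F : H →ₗ[ℂ] H)) : ℝ) * ‖F‖ ^ 2 := by
        rw [Finset.sum_const, Finset.card_univ, Fintype.card_fin, nsmul_eq_mul]
    _ ≤ n * ‖F‖ ^ 2 := by
        refine mul_le_mul_of_nonneg_right ?_ (sq_nonneg _)
        exact_mod_cast hfr

end general

open Pool.Agent.KS6_96.CslW

variable [Wt]

lemma g_le_one (j : ℕ) : β j * Real.exp (κ j) ≤ 1 := by
  rw [β_exp_eq]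
  exact Real.sqrt_le_one.2 (β_lt j).le

section main

variable {T : HH →L[ℂ] HH}

lemma rel (hT : T ∈ Alg LL) {A B : Finset ℕ} {j : ℕ} (hA : j ∉ A) (hB : j ∉ B) (w : E) :
    T (lp.single 2 B w) A + T (lp.single 2 (insert j B) (m (Γ j) w)) A =
      m (G j) (T (lp.single 2 B w) (insert j A) +
        T (lp.single 2 (insert j B) (m (Γ j) w)) (insert j A)) := by
  have h1 := hT _ (Nsub_mem_LL j) _ (test_mem hB (m (Γ j) w))
  rw [mem_Nsub, m_G_m_Γ] at h1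
  have h2 := h1 A hA
  rw [map_add, lp.coeFn_add, Pi.add_apply, Pi.add_apply] at h2
  exact h2

lemma rel_norm (hT : T ∈ Alg LL) {A B : Finset ℕ} {j : ℕ} (hA : j ∉ A) (hB : j ∉ B) (w : E) :
    ‖T (lp.single 2 B w) A‖ ≤ 2 * ‖T (lp.single 2 (insert j B) (m (Γ j) w))‖ +
      β j * Real.exp (κ j) * ‖T (lp.single 2 B w)‖ := by
  have h1 := rel hT hA hB w
  obtain ⟨x, hx⟩ : ∃ x, x = T (lp.single 2 (insert j B) (m (Γ j) w)) := ⟨_, rfl⟩
  obtain ⟨y, hy⟩ : ∃ y, y = T (lp.single 2 B w) := ⟨_, rfl⟩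
  rw [← hx, ← hy] at h1 ⊢
  have h2 : y A = m (G j) (y (insert j A) + x (insert j A)) - x A := by
    rw [← h1]; abel
  rw [h2]
  have h3 := norm_m_G_le j (y (insert j A) + x (insert j A))
  have h4 : ∀ (z : HH) (C : Finset ℕ), ‖z C‖ ≤ ‖z‖ := fun z C =>
    lp.norm_apply_le_norm (by norm_num) z C
  have h5 := g_le_one j
  have h6 : 0 ≤ β j * Real.exp (κ j) := mul_nonneg (β_pos j).le (Real.exp_pos _).le
  have h7 : ‖y (insert j A) + x (insert j A)‖ ≤ ‖y‖ + ‖x‖ :=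
    (norm_add_le _ _).trans (add_le_add (h4 _ _) (h4 _ _))
  calc ‖m (G j) (y (insert j A) + x (insert j A)) - x A‖ ≤
      ‖m (G j) (y (insert j A) + x (insert j A))‖ + ‖x A‖ := norm_sub_le _ _
    _ ≤ β j * Real.exp (κ j) * (‖y‖ + ‖x‖) + ‖x‖ :=
        add_le_add (h3.trans (mul_le_mul_of_nonneg_left h7 h6)) (h4 _ _)
    _ ≤ 2 * ‖x‖ + β j * Real.exp (κ j) * ‖y‖ := by
        have h8 : β j * Real.exp (κ j) * ‖x‖ ≤ 1 * ‖x‖ :=
          mul_le_mul_of_nonneg_right h5 (norm_nonneg _)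
        linarith

lemma eq_zero_of_single (h : ∀ (B : Finset ℕ) (w : E), T (lp.single 2 B w) = 0) : T = 0 := by
  ext1 f
  have h2 := (lp.hasSum_single (p := 2) (by norm_num) f).mapL T
  simp only [h] at h2
  exact h2.unique hasSum_zero

lemma insert_inj {B : Finset ℕ} {a b : ℕ} (ha : a ∉ B) (hb : b ∉ B) (hab : a ≠ b) :
    insert a B ≠ insert b B := by
  intro h
  have h2 : a ∈ insert b B := h ▸ Finset.mem_insert_self a B
  rw [Finset.mem_insert] at h2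
  rcases h2 with h2 | h2
  · exact hab h2
  · exact ha h2

lemma norm_single' (C : Finset ℕ) (v : E) : ‖(lp.single 2 C v : HH)‖ = ‖v‖ :=
  lp.norm_single (E := fun _ : Finset ℕ => E) (p := 2) (by norm_num) C v

lemma ortho {B : Finset ℕ} {J : ℕ} (hnB : ∀ k : ℕ, k + J ∉ B) {u : ℕ → E}
    (hu : ∀ k, ‖u k‖ = 1) :
    Orthonormal ℂ (fun k => (lp.single 2 (insert (k + J) B) (u k) : HH)) := by
  refine ⟨fun k => by rw [norm_single', hu], fun k l hkl => ?_⟩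
  have h1 := lp.inner_single_left (𝕜 := ℂ) (insert (k + J) B) (u k)
    (lp.single 2 (insert (l + J) B) (u l) : HH)
  have h2 : (lp.single 2 (insert (l + J) B) (u l) : HH) (insert (k + J) B) = 0 :=
    lp.single_apply_ne 2 _ _ (insert_inj (hnB k) (hnB l) (by omega))
  rw [h2, inner_zero_right] at h1
  exact h1

lemma single_smul' (C : Finset ℕ) (a : ℂ) (v : E) :
    (lp.single 2 C (a • v) : HH) = a • lp.single 2 C v :=
  (lp.singleContinuousLinearMap ℂ (fun _ : Finset ℕ => E) 2 C).map_smul a v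

/-- the threshold -/
lemma thr (A B : Finset ℕ) {y c : ℝ} (hc0 : 0 < c) : ∃ J : ℕ,
    (∀ k : ℕ, k + J ∉ A) ∧ (∀ k : ℕ, k + J ∉ B) ∧
      ∀ k : ℕ, β (k + J) * Real.exp (κ (k + J)) * y ≤ c := by
  have hlim : Filter.Tendsto (fun j => β j * Real.exp (κ j) * y) Filter.atTop (nhds 0) := by
    have := β_exp_tendsto.mul_const y
    rwa [zero_mul] at this
  obtain ⟨J1, hJ1⟩ := Filter.eventually_atTop.1 (hlim.eventually_le_const hc0)
  obtain ⟨M, hM⟩ := A.exists_nat_subset_range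
  obtain ⟨M', hM'⟩ := B.exists_nat_subset_range
  refine ⟨max J1 (max M M'), fun k hk => ?_, fun k hk => ?_, fun k => hJ1 _ ?_⟩
  · have h1 := Finset.mem_range.1 (hM hk)
    omega
  · have h1 := Finset.mem_range.1 (hM' hk)
    omega
  · omega

/-- a vector with a nonzero image -/
lemma exists_entry (h0 : T ≠ 0) : ∃ (A B : Finset ℕ) (w : E), T (lp.single 2 B w) A ≠ 0 := by
  by_contra hcon
  push Not at hcon
  refine h0 (eq_zero_of_single fun B w => ?_)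
  exact lp.ext (funext fun A => hcon A B w)

lemma lower_one (hT : T ∈ Alg LL) {A B : Finset ℕ} {j : ℕ} (hA : j ∉ A) (hB : j ∉ B) {w : E}
    {c : ℝ} (hc0 : 0 < c) (hc : c = ‖T (lp.single 2 B w) A‖) (hw : w ≠ 0)
    (h2 : β j * Real.exp (κ j) * ‖T (lp.single 2 B w)‖ ≤ c / 2) :
    c / (4 * ‖w‖) * β j ≤ ‖T (lp.single 2 (insert j B)
      (((‖m (Γ j) w‖⁻¹ : ℝ) : ℂ) • m (Γ j) w))‖ := by
  have hu0 : m (Γ j) w ≠ 0 := by
    intro h
    apply hw
    rw [← m_G_m_Γ j w, h, map_zero]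
  have hun : 0 < ‖m (Γ j) w‖ := norm_pos_iff.2 hu0
  have hw0 : 0 < ‖w‖ := norm_pos_iff.2 hw
  have h1 := rel_norm hT hA hB w
  rw [← hc] at h1
  have h3 : c / 4 ≤ ‖T (lp.single 2 (insert j B) (m (Γ j) w))‖ := by linarith
  have h4 : ‖m (Γ j) w‖ ≤ (β j)⁻¹ * ‖w‖ := norm_m_Γ_le _ _
  have hβ := β_pos j
  have h5 : c / (4 * ‖w‖) * β j = ((β j)⁻¹ * ‖w‖)⁻¹ * (c / 4) := by
    field_simp
  rw [h5, single_smul', map_smul, norm_smul, Complex.norm_real, norm_inv, norm_norm]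
  exact mul_le_mul (inv_anti₀ hun h4) h3 (by positivity) (by positivity)

/-- an orthonormal system on which the operator is not small -/
lemma lower (hT : T ∈ Alg LL) (h0 : T ≠ 0) : ∃ c : ℝ, 0 < c ∧ ∃ (J : ℕ) (e : ℕ → HH),
    Orthonormal ℂ e ∧ ∀ k, c * β (k + J) ≤ ‖T (e k)‖ := by
  obtain ⟨A, B, w, hABw⟩ := exists_entry h0
  obtain ⟨c, hc⟩ : ∃ c, c = ‖T (lp.single 2 B w) A‖ := ⟨_, rfl⟩
  have hc0 : 0 < c := by rw [hc]; exact norm_pos_iff.2 hABw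
  have hw : w ≠ 0 := by
    intro h
    apply hABw
    have h1 : (lp.single 2 B w : HH) = 0 := by
      rw [← norm_eq_zero, norm_single', h, norm_zero]
    rw [h1, map_zero]
    rfl
  have hw0 : 0 < ‖w‖ := norm_pos_iff.2 hw
  obtain ⟨J, hnA, hnB, hJ⟩ := thr A B (y := ‖T (lp.single 2 B w)‖) (half_pos hc0)
  have hu : ∀ k, ‖(((‖m (Γ (k + J)) w‖⁻¹ : ℝ) : ℂ) • m (Γ (k + J)) w : E)‖ = 1 := by
    intro k
    have hu0 : m (Γ (k + J)) w ≠ 0 := by
      intro h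
      apply hw
      rw [← m_G_m_Γ (k + J) w, h, map_zero]
    rw [norm_smul, Complex.norm_real, norm_inv, norm_norm,
      inv_mul_cancel₀ (norm_pos_iff.2 hu0).ne']
  exact ⟨c / (4 * ‖w‖), by positivity, J, _, ortho hnB hu, fun k =>
    lower_one hT (hnA k) (hnB k) hc0 hc hw (hJ k)⟩

/-- **The approximation numbers decay slowly.** -/
theorem slow (hT : T ∈ Alg LL) (h0 : T ≠ 0) : ∃ c : ℝ, 0 < c ∧ ∃ J : ℕ,
    ∀ᶠ n : ℕ in Filter.atTop, c * β ((n + 1) ^ 2 + J) ≤ apn T n := by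
  obtain ⟨c, hc, J, e, he, hlow⟩ := lower hT h0
  obtain ⟨Q, hQ⟩ : ∃ Q : ℝ, Q = ‖T‖ + c := ⟨_, rfl⟩
  have hQ0 : 0 < Q := by rw [hQ]; have := norm_nonneg T; linarith
  refine ⟨c / 2, by positivity, J, ?_⟩
  obtain ⟨M, hM⟩ := exists_nat_gt ((8 * Q ^ 2 / c ^ 2) ^ 2)
  filter_upwards [Filter.eventually_ge_atTop (M + J + 256)] with n hn
  by_contra hcon
  push Not at hcon
  obtain ⟨X, hX⟩ : ∃ X : ℝ, X = (n : ℝ) + 1 := ⟨_, rfl⟩
  have hnR : (M : ℝ) + J + 256 ≤ n := by exact_mod_cast hn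
  have hM0 : (0 : ℝ) ≤ M := Nat.cast_nonneg M
  have hJ0 : (0 : ℝ) ≤ J := Nat.cast_nonneg J
  have hX256 : 256 ≤ X := by linarith
  have hX0 : 0 < X := by linarith
  obtain ⟨F, hF, hTF⟩ := apn_lt hcon
  obtain ⟨b, hb⟩ : ∃ b : ℝ, b = c * β ((n + 1) ^ 2 + J) := ⟨_, rfl⟩
  have hb2 : c / 2 * β ((n + 1) ^ 2 + J) = b / 2 := by rw [hb]; ring
  rw [hb2] at hTF
  have hβ1 : β ((n + 1) ^ 2 + J) ≤ 1 := (β_lt _).le
  have hb0 : 0 < b := by
    rw [hb]
    exact mul_pos hc (β_pos _)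
  have hbc : b ≤ c := by
    rw [hb]
    exact mul_le_of_le_one_right hc.le hβ1
  have hFn : ‖F‖ ≤ Q := by
    have h5 : F = T - (T - F) := by abel
    have h4 : ‖F‖ ≤ ‖T‖ + ‖T - F‖ := by
      calc ‖F‖ = ‖T - (T - F)‖ := by rw [← h5]
        _ ≤ _ := norm_sub_le _ _
    rw [hQ]
    linarith
  have hFe : ∀ k ∈ Finset.range ((n + 1) ^ 2), (b / 2) ^ 2 ≤ ‖F (e k)‖ ^ 2 := by
    intro k hk
    refine pow_le_pow_left₀ (by positivity) ?_ 2
    have h1 : β ((n + 1) ^ 2 + J) ≤ β (k + J) := β_anti (by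
      have := Finset.mem_range.1 hk
      omega)
    have h2 : b ≤ c * β (k + J) := by rw [hb]; exact mul_le_mul_of_nonneg_left h1 hc.le
    have h4 := h2.trans (hlow k)
    have h5 : ‖T (e k)‖ ≤ ‖F (e k)‖ + ‖T - F‖ := by
      have h6 : T (e k) = F (e k) + (T - F) (e k) := by
        rw [sub_apply]; abel
      have h7 : ‖(T - F) (e k)‖ ≤ ‖T - F‖ := by
        have := (T - F).le_opNorm (e k)
        rwa [he.1 k, mul_one] at this
      rw [h6]
      exact (norm_add_le _ _).trans (by linarith)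
    linarith
  have h4 := sum_rank F hF he (Finset.range ((n + 1) ^ 2))
  have h5 := Finset.sum_le_sum hFe
  rw [Finset.sum_const, Finset.card_range, nsmul_eq_mul] at h5
  have h6 : (((n + 1) ^ 2 : ℕ) : ℝ) * (b / 2) ^ 2 ≤ n * Q ^ 2 :=
    (h5.trans h4).trans (mul_le_mul_of_nonneg_left
      (pow_le_pow_left₀ (norm_nonneg _) hFn 2) (Nat.cast_nonneg n))
  push_cast at h6
  rw [← hX] at h6
  -- the weight
  have h7 : c ^ 2 * (1 / (2 * Real.sqrt X)) ≤ b ^ 2 := by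
    rw [hb, mul_pow]
    refine mul_le_mul_of_nonneg_left ?_ (sq_nonneg c)
    refine le_trans ?_ (pow_le_pow_left₀ (rr_pos _).le (Wt.low _) 2)
    rw [rr_sq]
    refine one_div_le_one_div_of_le (by positivity) ?_
    have h8 : ((((n + 1) ^ 2 + J : ℕ) : ℝ) + 256) ≤ (4 * X) ^ 2 := by
      push_cast
      rw [← hX]
      nlinarith
    have h9 : Real.sqrt ((((n + 1) ^ 2 + J : ℕ) : ℝ) + 256) ≤ 4 * X := by
      calc _ ≤ Real.sqrt ((4 * X) ^ 2) := Real.sqrt_le_sqrt h8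
        _ = 4 * X := Real.sqrt_sq (by positivity)
    calc Real.sqrt (Real.sqrt ((((n + 1) ^ 2 + J : ℕ) : ℝ) + 256)) ≤ Real.sqrt (4 * X) :=
          Real.sqrt_le_sqrt h9
      _ = 2 * Real.sqrt X := by
        rw [Real.sqrt_mul (by norm_num), show (4 : ℝ) = 2 ^ 2 by norm_num,
          Real.sqrt_sq (by norm_num)]
  have hsX : 0 < Real.sqrt X := Real.sqrt_pos.2 hX0
  have hXX : Real.sqrt X * Real.sqrt X = X := Real.mul_self_sqrt hX0.le
  have h8 : X ^ 2 * (c ^ 2 * (1 / (2 * Real.sqrt X)) / 4) ≤ X * Q ^ 2 := by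
    calc X ^ 2 * (c ^ 2 * (1 / (2 * Real.sqrt X)) / 4) ≤ X ^ 2 * (b ^ 2 / 4) := by
          refine mul_le_mul_of_nonneg_left ?_ (sq_nonneg _)
          linarith
      _ = X ^ 2 * (b / 2) ^ 2 := by ring
      _ ≤ n * Q ^ 2 := h6
      _ ≤ X * Q ^ 2 := mul_le_mul_of_nonneg_right (by linarith) (sq_nonneg _)
  have h9 : X ^ 2 * (c ^ 2 * (1 / (2 * Real.sqrt X)) / 4) = X * (c ^ 2 * Real.sqrt X / 8) := by
    have h10 : X ^ 2 = X * (Real.sqrt X * Real.sqrt X) := by rw [hXX]; ring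
    rw [h10]
    field_simp; ring
  rw [h9] at h8
  have h10 : c ^ 2 * Real.sqrt X / 8 ≤ Q ^ 2 := le_of_mul_le_mul_left h8 hX0
  have h11 : Real.sqrt X ≤ 8 * Q ^ 2 / c ^ 2 := by
    rw [le_div_iff₀ (by positivity)]
    linarith
  have h12 : X ≤ (8 * Q ^ 2 / c ^ 2) ^ 2 := by
    calc X = Real.sqrt X ^ 2 := by rw [sq, hXX]
      _ ≤ _ := pow_le_pow_left₀ hsX.le h11 2
  linarith

end main

end Pool.Agent.KS6_96.CslS
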