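import Mathlib
import Pool.Agent.KS6_96.Csl.CslS

/-!
# Weights which dominate a given null sequence
-/

open scoped InnerProduct ENNReal symmDiff Topology
open ContinuousLinearMap Filter
open Pool.Agent.KS6_96.Csl Pool.Agent.KS6_96.CslW Pool.Agent.KS6_96.CslS

namespace Pool.Agent.KS6_96.CslT

section seq

variable {ε : ℕ → ℝ} (hε : Tendsto ε atTop (𝓝 0))

/-- the monotone majorant -/
noncomputable def es (ε : ℕ → ℝ) (n : ℕ) : ℝ := ⨆ m : ℕ, |ε (n + m)|

include hε

lemma bdd (n : ℕ) : BddAbove (Set.range fun m : ℕ => |ε (n + m)|) := by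
  obtain ⟨B, hB⟩ := (hε.abs.bddAbove_range)
  refine ⟨B, ?_⟩
  rintro _ ⟨m, rfl⟩
  exact hB ⟨n + m, rfl⟩

lemma le_es (n m : ℕ) (h : n ≤ m) : |ε m| ≤ es ε n := by
  obtain ⟨k, rfl⟩ := Nat.exists_eq_add_of_le h
  exact le_ciSup (bdd hε n) k

lemma es_nonneg (n : ℕ) : 0 ≤ es ε n := (abs_nonneg _).trans (le_es hε n n le_rfl)

lemma es_anti : Antitone (es ε) := by
  intro a b hab
  refine ciSup_le fun m => ?_
  exact le_es hε a (b + m) (by omega)

lemma es_lim : Tendsto (es ε) atTop (𝓝 0) := by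
  rw [Metric.tendsto_atTop]
  intro η hη
  have h1 := hε.abs
  rw [abs_zero] at h1
  obtain ⟨N, hN⟩ := Filter.eventually_atTop.1 (h1.eventually_le_const (half_pos hη))
  refine ⟨N, fun n hn => ?_⟩
  rw [Real.dist_eq, sub_zero, abs_of_nonneg (es_nonneg hε n)]
  refine lt_of_le_of_lt (ciSup_le fun m => hN (n + m) (by omega)) (half_lt_self hη)

end seq

/-- the slow index -/
def sj (j : ℕ) : ℕ := Nat.sqrt j / 2

lemma sj_mono : Monotone sj := fun a b hab => Nat.div_le_div_right (Nat.sqrt_le_sqrt hab)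

lemma sj_lim : Tendsto sj atTop atTop := by
  refine tendsto_atTop.2 fun M => ?_
  filter_upwards [eventually_ge_atTop ((2 * M) ^ 2)] with j hj
  have h1 : 2 * M ≤ Nat.sqrt j := by
    rw [Nat.le_sqrt']
    exact hj
  unfold sj
  omega

lemma rr_anti : Antitone rr := by
  intro a b hab
  unfold rr
  have h1 : (a : ℝ) + 256 ≤ b + 256 := by
    have : (a : ℝ) ≤ b := by exact_mod_cast hab
    linarith
  exact one_div_le_one_div_of_le (by positivity)
    (Real.sqrt_le_sqrt (Real.sqrt_le_sqrt (Real.sqrt_le_sqrt h1)))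

lemma rr_half (j : ℕ) : rr j ≤ 1 / 2 := by
  unfold rr
  refine one_div_le_one_div_of_le (by norm_num) ?_
  have h0 : (0 : ℝ) ≤ j := Nat.cast_nonneg j
  have h1 : (16 : ℝ) ≤ Real.sqrt (j + 256) := Real.le_sqrt_of_sq_le (by linarith)
  have h2 : (4 : ℝ) ≤ Real.sqrt (Real.sqrt (j + 256)) := Real.le_sqrt_of_sq_le (by linarith)
  exact Real.le_sqrt_of_sq_le (by linarith)

lemma rr_lim : Tendsto rr atTop (𝓝 0) := by
  unfold rr
  have h1 : Tendsto (fun j : ℕ => (j : ℝ) + 256) atTop atTop :=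
    tendsto_atTop_add_const_right _ _ tendsto_natCast_atTop_atTop
  have h2 : Tendsto (fun j : ℕ => Real.sqrt (Real.sqrt (Real.sqrt ((j : ℝ) + 256)))) atTop atTop :=
    Real.tendsto_sqrt_atTop.comp (Real.tendsto_sqrt_atTop.comp (Real.tendsto_sqrt_atTop.comp h1))
  have h3 := h2.inv_tendsto_atTop
  refine h3.congr fun j => ?_
  rw [one_div]
  rfl

/-- the weights of a null sequence -/
@[instance_reducible] noncomputable def wt {ε : ℕ → ℝ} (hε : Tendsto ε atTop (𝓝 0)) : Wt where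
  b j := min (1 / 2) (Real.sqrt (es ε (sj j)) + rr j)
  lt_one j := lt_of_le_of_lt (min_le_left _ _) (by norm_num)
  lim := by
    have h1 : Tendsto (fun j => Real.sqrt (es ε (sj j)) + rr j) atTop (𝓝 (Real.sqrt 0 + 0)) :=
      (((Real.continuous_sqrt.tendsto 0).comp ((es_lim hε).comp sj_lim))).add rr_lim
    rw [Real.sqrt_zero, add_zero] at h1
    refine squeeze_zero (fun j => ?_) (fun j => min_le_right _ _) h1
    exact le_min (by norm_num) (add_nonneg (Real.sqrt_nonneg _) (rr_pos j).le)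
  anti := by
    intro a b hab
    exact min_le_min le_rfl (add_le_add (Real.sqrt_le_sqrt (es_anti hε (sj_mono hab)))
      (rr_anti hab))
  low j := le_min (rr_half j) (le_add_of_nonneg_left (Real.sqrt_nonneg _))

/-- **All nonzero operators have slowly decaying approximation numbers.** -/
theorem slow_o {ε : ℕ → ℝ} (hε : Tendsto ε atTop (𝓝 0)) {T : HH →L[ℂ] HH}
    (hT : T ∈ Alg (@LL (wt hε))) (h0 : T ≠ 0) : ε =o[atTop] apn T := by
  obtain ⟨c, hc, J, h1⟩ := @slow (wt hε) T hT h0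
  have hs : Tendsto (fun n => Real.sqrt (es ε n)) atTop (𝓝 0) := by
    have := (Real.continuous_sqrt.tendsto 0).comp (es_lim hε)
    rwa [Real.sqrt_zero] at this
  rw [Asymptotics.isLittleO_iff]
  intro η hη
  filter_upwards [h1, hs.eventually_le_const (by norm_num : (0 : ℝ) < 1 / 2),
    hs.eventually_le_const (mul_pos hη hc), eventually_ge_atTop (J + 2)] with n h2 h3 h4 h5
  rw [Real.norm_eq_abs, Real.norm_of_nonneg (apn_nonneg T n)]
  have h6 : sj ((n + 1) ^ 2 + J) ≤ n := by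
    have h7 : Nat.sqrt ((n + 1) ^ 2 + J) < n + 2 := by
      rw [Nat.sqrt_lt']
      nlinarith
    unfold sj
    omega
  have h7 : Real.sqrt (es ε n) ≤ @β (wt hε) ((n + 1) ^ 2 + J) := by
    show _ ≤ min (1 / 2) (Real.sqrt (es ε (sj ((n + 1) ^ 2 + J))) + rr ((n + 1) ^ 2 + J))
    refine le_min h3 ((Real.sqrt_le_sqrt (es_anti hε h6)).trans ?_)
    exact le_add_of_nonneg_right (rr_pos _).le
  have h8 : c * Real.sqrt (es ε n) ≤ apn T n :=
    (mul_le_mul_of_nonneg_left h7 hc.le).trans h2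
  have h9 : 0 ≤ Real.sqrt (es ε n) := Real.sqrt_nonneg _
  calc |ε n| ≤ es ε n := le_es hε n n le_rfl
    _ = Real.sqrt (es ε n) * Real.sqrt (es ε n) := (Real.mul_self_sqrt (es_nonneg hε n)).symm
    _ ≤ η * c * Real.sqrt (es ε n) := mul_le_mul_of_nonneg_right h4 h9
    _ = η * (c * Real.sqrt (es ε n)) := by ring
    _ ≤ η * apn T n := mul_le_mul_of_nonneg_left h8 hη.le

end Pool.Agent.KS6_96.CslT
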