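import Mathlib
import Pool.Agent.KS6_96.Csl.CslDefs
import Pool.Agent.KS6_96.Csl.CslS

/-!
# Schatten classes by approximation numbers, and weak* density
-/

open scoped InnerProduct ENNReal Topology
open ContinuousLinearMap Filter
open Pool.Agent.KS6_96.Csl

namespace Pool.Agent.KS6_96.Sch

open Pool.Agent.KS6_96.CslS

variable {H : Type*} [NormedAddCommGroup H] [InnerProductSpace ℂ H]

/-- the Schatten class `S_p`: the approximation numbers are `p`-summable. -/
def MemSchatten (p : ℝ) (T : H →L[ℂ] H) : Prop := Summable fun n => apn T n ^ p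

lemma apn_le (T F : H →L[ℂ] H) (n : ℕ) (h : (F : H →ₗ[ℂ] H).rank ≤ n) : apn T n ≤ ‖T - F‖ :=
  csInf_le ⟨0, by rintro _ ⟨F, _, rfl⟩; exact norm_nonneg _⟩ ⟨F, h, rfl⟩

set_option linter.unusedSectionVars false

variable [CompleteSpace H]

lemma apn_anti (T : H →L[ℂ] H) : Antitone (apn T) := by
  intro m n hmn
  refine le_of_forall_gt fun r hr => ?_
  obtain ⟨F, hF, hTF⟩ := apn_lt hr
  refine (apn_le T F n (hF.trans ?_)).trans_lt hTF
  exact_mod_cast hmn

lemma apn_mul_le (S T : H →L[ℂ] H) (m n : ℕ) : apn (S * T) (m + n) ≤ apn S m * apn T n := by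
  have key : ∀ ε > 0, apn (S * T) (m + n) ≤ (apn S m + ε) * (apn T n + ε) := by
    intro ε hε
    obtain ⟨F, hF, hSF⟩ := apn_lt (T := S) (n := m) (r := apn S m + ε) (by linarith)
    obtain ⟨G, hG, hTG⟩ := apn_lt (T := T) (n := n) (r := apn T n + ε) (by linarith)
    have h1 : ((F * T + (S - F) * G : H →L[ℂ] H) : H →ₗ[ℂ] H).rank ≤ ((m + n : ℕ) : Cardinal) := by
      have e1 : ((F * T + (S - F) * G : H →L[ℂ] H) : H →ₗ[ℂ] H) =
          (F : H →ₗ[ℂ] H).comp (T : H →ₗ[ℂ] H) +
            ((S - F : H →L[ℂ] H) : H →ₗ[ℂ] H).comp (G : H →ₗ[ℂ] H) := rfl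
      rw [e1]
      refine (LinearMap.rank_add_le _ _).trans ?_
      push_cast
      exact add_le_add ((LinearMap.rank_comp_le_left _ _).trans hF)
        ((LinearMap.rank_comp_le_right _ _).trans hG)
    refine (apn_le _ _ _ h1).trans ?_
    have e2 : S * T - (F * T + (S - F) * G) = (S - F) * (T - G) := by
      rw [mul_sub, sub_mul S F T]; abel
    rw [e2]
    refine (norm_mul_le _ _).trans ?_
    exact mul_le_mul hSF.le hTG.le (norm_nonneg _) ((norm_nonneg _).trans hSF.le)
  have h2 : Tendsto (fun ε : ℝ => (apn S m + ε) * (apn T n + ε)) (𝓝[>] 0)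
      (𝓝 ((apn S m + 0) * (apn T n + 0))) := by
    refine Tendsto.mono_left ?_ nhdsWithin_le_nhds
    exact (by fun_prop : Continuous fun ε : ℝ => (apn S m + ε) * (apn T n + ε)).tendsto 0
  rw [add_zero, add_zero] at h2
  refine ge_of_tendsto h2 ?_
  filter_upwards [self_mem_nhdsWithin] with ε hε
  exact key ε hε

lemma MemSchatten.mono {p q : ℝ} (hp : 0 < p) (hpq : p ≤ q) {T : H →L[ℂ] H}
    (h : MemSchatten p T) : MemSchatten q T := by
  have h1 : Tendsto (fun n => apn T n ^ p) atTop (𝓝 0) := h.tendsto_atTop_zero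
  refine Summable.of_norm_bounded_eventually_nat (g := fun n => apn T n ^ p) h ?_
  filter_upwards [h1.eventually_le_const (show (0 : ℝ) < 1 by norm_num)] with n hn
  have h0 := apn_nonneg T n
  have h3 : apn T n ≤ 1 := by
    by_contra hcon
    push Not at hcon
    have := Real.one_lt_rpow hcon hp
    linarith
  rw [Real.norm_of_nonneg (Real.rpow_nonneg h0 _)]
  rcases h0.eq_or_lt with h4 | h4
  · rw [← h4, Real.zero_rpow hp.ne', Real.zero_rpow (hp.trans_le hpq).ne']
  · exact Real.rpow_le_rpow_of_exponent_ge h4 h3 hpq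

lemma MemSchatten.mul {p : ℝ} (hp : 0 < p) {S T : H →L[ℂ] H} (hS : MemSchatten p S)
    (hT : MemSchatten p T) : MemSchatten (p / 2) (S * T) := by
  have h0 := apn_nonneg S
  have h0' := apn_nonneg T
  have h00 := apn_nonneg (S * T)
  have hsq : ∀ a : ℝ, 0 ≤ a → (a ^ (p / 2)) ^ 2 = a ^ p := by
    intro a ha
    rw [← Real.rpow_natCast, ← Real.rpow_mul ha]
    congr 1
    push_cast
    ring
  have h1 : ∀ k, apn (S * T) (2 * k) ^ (p / 2) ≤ apn S k ^ p + apn T k ^ p := by
    intro k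
    have h2 : apn (S * T) (2 * k) ≤ apn S k * apn T k := by
      rw [two_mul]; exact apn_mul_le S T k k
    calc apn (S * T) (2 * k) ^ (p / 2) ≤ (apn S k * apn T k) ^ (p / 2) :=
          Real.rpow_le_rpow (h00 _) h2 (by positivity)
      _ = apn S k ^ (p / 2) * apn T k ^ (p / 2) := Real.mul_rpow (h0 k) (h0' k)
      _ ≤ _ := by
        rw [← hsq _ (h0 k), ← hsq _ (h0' k)]
        nlinarith [sq_nonneg (apn S k ^ (p / 2) - apn T k ^ (p / 2)),
          sq_nonneg (apn S k ^ (p / 2)), sq_nonneg (apn T k ^ (p / 2))]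
  have hsum : Summable fun k => apn S k ^ p + apn T k ^ p := Summable.add hS hT
  have he : Summable fun k => apn (S * T) (2 * k) ^ (p / 2) :=
    Summable.of_nonneg_of_le (fun k => Real.rpow_nonneg (h00 _) _) h1 hsum
  have ho : Summable fun k => apn (S * T) (2 * k + 1) ^ (p / 2) :=
    Summable.of_nonneg_of_le (fun k => Real.rpow_nonneg (h00 _) _) (fun k =>
      Real.rpow_le_rpow (h00 _) (apn_anti _ (Nat.le_succ _)) (by positivity)) he
  exact (HasSum.even_add_odd he.hasSum ho.hasSum).summable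

/-- The operators of `S_p` in `Alg L` are weak* dense in `Alg L`. -/
def SchattenWeakStarDense (p : ℝ) (L : Set (ClosedSubmodule ℂ H)) : Prop :=
  Alg L ⊆ @closure _ (weakStar H) {A | A ∈ Alg L ∧ MemSchatten p A}

/-- the functionals that define the weak* topology -/
lemma continuous_functional (x y : ℕ → H) (hx : Summable fun n => ‖x n‖ ^ 2)
    (hy : Summable fun n => ‖y n‖ ^ 2) :
    @Continuous _ _ (weakStar H) _ (fun A : H →L[ℂ] H => ∑' n, inner ℂ (y n) (A (x n))) := by
  unfold weakStar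
  refine continuous_iInf_dom (i := ⟨(x, y), hx, hy⟩) ?_
  exact continuous_induced_dom

lemma continuous_mul_left (S : H →L[ℂ] H) :
    @Continuous _ _ (weakStar H) (weakStar H) (fun A : H →L[ℂ] H => S * A) := by
  have : @Continuous _ _ (weakStar H) (⨅ p : {p : (ℕ → H) × (ℕ → H) //
      (Summable fun n => ‖p.1 n‖ ^ 2) ∧ Summable fun n => ‖p.2 n‖ ^ 2},
    TopologicalSpace.induced (fun A : H →L[ℂ] H => ∑' n, inner ℂ (p.1.2 n) (A (p.1.1 n)))
      inferInstance) (fun A : H →L[ℂ] H => S * A) := by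
    refine continuous_iInf_rng.2 ?_
    rintro ⟨⟨x, y⟩, hx, hy⟩
    refine continuous_induced_rng.2 ?_
    have h1 := continuous_functional x (fun n => adjoint S (y n)) hx (by
      refine Summable.of_nonneg_of_le (fun n => by positivity) (fun n => ?_)
        (hy.mul_left (‖adjoint S‖ ^ 2))
      rw [← mul_pow]
      exact pow_le_pow_left₀ (norm_nonneg _) ((adjoint S).le_opNorm _) 2)
    have e1 : (fun A : H →L[ℂ] H => ∑' n, inner ℂ (adjoint S (y n)) (A (x n))) =
        (fun A : H →L[ℂ] H => ∑' n, inner ℂ (y n) (A (x n))) ∘ fun A : H →L[ℂ] H => S * A := by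
      funext A
      refine tsum_congr fun n => ?_
      rw [adjoint_inner_left]
      rfl
    rw [← e1]
    exact h1
  exact this

lemma closure_zero {A : H →L[ℂ] H} (h : A ∈ @closure _ (weakStar H) {0}) : A = 0 := by
  ext1 x
  refine ext_inner_left ℂ fun y => ?_
  have hs : ∀ z : H, Summable fun n : ℕ => ‖(Pi.single 0 z : ℕ → H) n‖ ^ 2 := by
    intro z
    refine summable_of_ne_finset_zero (s := {0}) fun n hn => ?_
    rw [Finset.mem_singleton] at hn
    rw [Pi.single_eq_of_ne hn]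
    simp
  have h1 := continuous_functional (Pi.single 0 x) (Pi.single 0 y) (hs x) (hs y)
  have h2 : ∀ B : H →L[ℂ] H, ∑' n, inner ℂ ((Pi.single 0 y : ℕ → H) n)
      (B ((Pi.single 0 x : ℕ → H) n)) = inner ℂ y (B x) := by
    intro B
    rw [tsum_eq_single 0]
    · simp
    · intro n hn
      rw [Pi.single_eq_of_ne hn]
      simp
  simp only [h2] at h1
  let _ : TopologicalSpace (H →L[ℂ] H) := weakStar H
  have h3 : IsClosed ((fun B : H →L[ℂ] H => inner ℂ y (B x)) ⁻¹' {0}) :=
    isClosed_singleton.preimage h1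
  have h4 : closure {(0 : H →L[ℂ] H)} ⊆ (fun B : H →L[ℂ] H => inner ℂ y (B x)) ⁻¹' {0} :=
    closure_minimal (by
      rintro _ rfl
      simp) h3
  have h5 := h4 h
  simp only [Set.mem_preimage, Set.mem_singleton_iff] at h5
  rw [h5]
  simp

lemma one_mem_alg (L : Set (ClosedSubmodule ℂ H)) : (1 : H →L[ℂ] H) ∈ Alg L :=
  fun _ _ _ hx => hx

lemma mul_mem_alg {L : Set (ClosedSubmodule ℂ H)} {A B : H →L[ℂ] H} (hA : A ∈ Alg L)
    (hB : B ∈ Alg L) : A * B ∈ Alg L :=
  fun M hM x hx => hA M hM _ (hB M hM x hx)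

lemma dense_half {L : Set (ClosedSubmodule ℂ H)} {p : ℝ} (hp : 0 < p)
    (h : SchattenWeakStarDense p L) : SchattenWeakStarDense (p / 2) L := by
  let _ : TopologicalSpace (H →L[ℂ] H) := weakStar H
  have h1 : {A : H →L[ℂ] H | A ∈ Alg L ∧ MemSchatten p A} ⊆
      closure {A : H →L[ℂ] H | A ∈ Alg L ∧ MemSchatten (p / 2) A} := by
    rintro S ⟨hS, hSp⟩
    have h2 : (1 : H →L[ℂ] H) ∈ closure {A : H →L[ℂ] H | A ∈ Alg L ∧ MemSchatten p A} :=
      h (one_mem_alg L)
    have h3 := map_mem_closure (t := {A : H →L[ℂ] H | A ∈ Alg L ∧ MemSchatten (p / 2) A})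
      (continuous_mul_left S) h2 (by
        rintro T ⟨hT, hTp⟩
        exact ⟨mul_mem_alg hS hT, hSp.mul hp hTp⟩)
    rwa [mul_one] at h3
  intro A hA
  exact closure_minimal h1 isClosed_closure (h hA)

/-- If `S_p ∩ Alg L` is weak* dense in `Alg L` then so is `S_q ∩ Alg L`, for every `q > 0`. -/
theorem dense_all {L : Set (ClosedSubmodule ℂ H)} {p q : ℝ} (hp : 0 < p) (hq : 0 < q)
    (h : SchattenWeakStarDense p L) : SchattenWeakStarDense q L := by
  have h1 : ∀ m : ℕ, SchattenWeakStarDense (p / 2 ^ m) L := by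
    intro m
    induction m with
    | zero => simpa using h
    | succ m ih =>
      have := dense_half (by positivity) ih
      rwa [div_div, ← pow_succ] at this
  obtain ⟨m, hm⟩ := pow_unbounded_of_one_lt (p / q) (show (1 : ℝ) < 2 by norm_num)
  have h2 : p / 2 ^ m ≤ q := by
    rw [div_le_iff₀ (by positivity)]
    rw [div_lt_iff₀ hq] at hm
    linarith
  let _ : TopologicalSpace (H →L[ℂ] H) := weakStar H
  intro A hA
  refine closure_mono ?_ (h1 m hA)
  rintro B ⟨hB, hBp⟩
  exact ⟨hB, hBp.mono (by positivity) h2⟩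

end Pool.Agent.KS6_96.Sch
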