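import Mathlib
import Pool.Agent.KS6_96.Csl.Sch
import Pool.Agent.KS6_96.Csl.CslT

/-!
# The compact operators of the lattice belong to Schatten classes
-/

open scoped InnerProduct ENNReal symmDiff Topology
open ContinuousLinearMap Filter
open Pool.Agent.KS6_96.Csl

namespace Pool.Agent.KS6_96.Sch

open Pool.Agent.KS6_96.CslS Pool.Agent.KS6_96.CslW

section general

variable {F : Type} [NormedAddCommGroup F] [InnerProductSpace ℂ F] [CompleteSpace F]
  {ι : Type} [DecidableEq ι]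

/-- approximation numbers of diagonal operators with blocks of bounded rank -/
lemma apn_diag_le (D : ι → (F →L[ℂ] F)) (h : ∃ C, ∀ i, ‖D i‖ ≤ C) (r : ℕ)
    (hr : ∀ i, (D i : F →ₗ[ℂ] F).rank ≤ r) (s : Finset ι) (ε : ℝ) (hε : 0 ≤ ε)
    (hs : ∀ i ∉ s, ‖D i‖ ≤ ε) : apn (diag D h) (r * s.card) ≤ ε := by
  set G : lp (fun _ : ι => F) 2 →L[ℂ] lp (fun _ : ι => F) 2 :=
    ∑ i ∈ s, (lp.singleContinuousLinearMap ℂ (fun _ : ι => F) 2 i) ∘L (D i) ∘L
      (lp.evalCLM ℂ (fun _ : ι => F) 2 i) with hG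
  have hrank : (G : lp (fun _ : ι => F) 2 →ₗ[ℂ] lp (fun _ : ι => F) 2).rank ≤
      ((r * s.card : ℕ) : Cardinal) := by
    have e1 : (G : lp (fun _ : ι => F) 2 →ₗ[ℂ] lp (fun _ : ι => F) 2) =
        ∑ i ∈ s, ((lp.singleContinuousLinearMap ℂ (fun _ : ι => F) 2 i :
          F →L[ℂ] lp (fun _ : ι => F) 2) : F →ₗ[ℂ] lp (fun _ : ι => F) 2).comp
          ((D i : F →ₗ[ℂ] F).comp ((lp.evalCLM ℂ (fun _ : ι => F) 2 i :
            lp (fun _ : ι => F) 2 →L[ℂ] F) : lp (fun _ : ι => F) 2 →ₗ[ℂ] F)) := by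
      rw [hG]
      simp
    rw [e1]
    refine (LinearMap.rank_finsetSum_le _ _).trans ?_
    have e2 : ∀ i ∈ s, (((lp.singleContinuousLinearMap ℂ (fun _ : ι => F) 2 i :
          F →L[ℂ] lp (fun _ : ι => F) 2) : F →ₗ[ℂ] lp (fun _ : ι => F) 2).comp
          ((D i : F →ₗ[ℂ] F).comp ((lp.evalCLM ℂ (fun _ : ι => F) 2 i :
            lp (fun _ : ι => F) 2 →L[ℂ] F) : lp (fun _ : ι => F) 2 →ₗ[ℂ] F))).rank ≤
            (r : Cardinal) := by
      intro i _
      refine (LinearMap.rank_comp_le_right _ _).trans ?_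
      exact (LinearMap.rank_comp_le_left _ _).trans (hr i)
    refine (Finset.sum_le_sum e2).trans ?_
    rw [Finset.sum_const, nsmul_eq_mul]
    push_cast
    rw [mul_comm]
  refine (apn_le _ G _ hrank).trans ?_
  have hb : ∃ C, ∀ i, ‖(if i ∈ s then (0 : F →L[ℂ] F) else D i)‖ ≤ C := by
    refine ⟨ε, fun i => ?_⟩
    split_ifs with hi
    · rw [norm_zero]; exact hε
    · exact hs i hi
  have e1 : diag D h - G = diag (fun i => if i ∈ s then (0 : F →L[ℂ] F) else D i) hb := by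
    ext f i
    have e2 : G f = ∑ j ∈ s, lp.single 2 j (D j (f j)) := by
      rw [hG]
      simp only [sum_apply]
      rfl
    rw [sub_apply, e2]
    change (diag D h f) i - (∑ j ∈ s, lp.single 2 j (D j (f j)) : lp (fun _ : ι => F) 2) i = _
    rw [diag_apply, diag_apply, lp.coeFn_sum, Finset.sum_apply]
    by_cases hi : i ∈ s
    · rw [Finset.sum_eq_single i, lp.single_apply_self, if_pos hi]
      · simp
      · intro j _ hji
        exact lp.single_apply_ne 2 j _ (Ne.symm hji)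
      · intro h; exact absurd hi h
    · rw [Finset.sum_eq_zero, if_neg hi, sub_zero]
      intro j hj
      refine lp.single_apply_ne 2 j _ ?_
      rintro rfl
      exact hi hj
  rw [e1]
  refine norm_diag_le _ _ ε hε fun i => ?_
  split_ifs with hi
  · rw [norm_zero]; exact hε
  · exact hs i hi

end general

lemma K0_rank (n : ℕ) : (K0 n : E →ₗ[ℂ] E).rank ≤ (n : Cardinal) := by
  have h1 : LinearMap.range (K0 n : E →ₗ[ℂ] E) ≤
      Submodule.span ℂ (Set.range fun i : Fin n => u n (i + 2)) := by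
    rintro _ ⟨f, rfl⟩
    change K0 n f ∈ _
    rw [K0_apply]
    refine Submodule.sum_mem _ fun i _ => Submodule.smul_mem _ _ (Submodule.smul_mem _ _ ?_)
    exact Submodule.subset_span ⟨i, rfl⟩
  refine (Submodule.rank_mono h1).trans ((rank_span_le _).trans ?_)
  refine Cardinal.mk_range_le.trans ?_
  simp

lemma kk_rank (n : ℕ) (c : ℝ) : (kk n c : E →ₗ[ℂ] E).rank ≤ (n : Cardinal) := by
  have e1 : (kk n c : E →ₗ[ℂ] E) = (m (ex (-c)) : E →ₗ[ℂ] E).comp
      ((K0 n : E →ₗ[ℂ] E).comp (m (ex c) : E →ₗ[ℂ] E)) := rfl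
  rw [e1]
  refine (LinearMap.rank_comp_le_right _ _).trans ?_
  exact (LinearMap.rank_comp_le_left _ _).trans (K0_rank n)

/-- The weights `(j + 256)^(-1/(8 (q+1)))`. -/
@[instance_reducible] noncomputable def wtq (q : ℕ) : Wt where
  b j := rr j ^ (1 / ((q : ℝ) + 1))
  lt_one j := Real.rpow_lt_one (rr_pos j).le (lt_of_le_of_lt (CslT.rr_half j) (by norm_num))
    (by positivity)
  lim := by
    have h0 : (0 : ℝ) < 1 / ((q : ℝ) + 1) := by positivity
    have h1 : Tendsto (fun j => rr j ^ (1 / ((q : ℝ) + 1))) atTop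
        (𝓝 ((0 : ℝ) ^ (1 / ((q : ℝ) + 1)))) :=
      (Real.continuousAt_rpow_const 0 _ (Or.inr h0.le)).tendsto.comp CslT.rr_lim
    rwa [Real.zero_rpow h0.ne'] at h1
  anti := by
    intro a b hab
    exact Real.rpow_le_rpow (rr_pos b).le (CslT.rr_anti hab) (by positivity)
  low j := by
    have h1 : rr j ^ (1 : ℝ) ≤ rr j ^ (1 / ((q : ℝ) + 1)) := by
      refine Real.rpow_le_rpow_of_exponent_ge (rr_pos j)
        ((CslT.rr_half j).trans (by norm_num)) ?_
      rw [div_le_one (by positivity)]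
      have : (0 : ℝ) ≤ q := Nat.cast_nonneg q
      linarith
    rwa [Real.rpow_one] at h1

section fix

variable (q : ℕ)

lemma β_pow (j : ℕ) : @β (wtq q) j ^ (q + 1) = rr j := by
  show (rr j ^ (1 / ((q : ℝ) + 1))) ^ (q + 1) = rr j
  rw [← Real.rpow_natCast, ← Real.rpow_mul (rr_pos j).le]
  push_cast
  rw [one_div, inv_mul_cancel₀ (by positivity), Real.rpow_one]

lemma rr_pow_8 (j : ℕ) : rr j ^ 8 = 1 / ((j : ℝ) + 256) := by
  have h3 : (rr j ^ 2) ^ 4 = 1 / ((j : ℝ) + 256) := by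
    rw [rr_sq, div_pow, one_pow]
    congr 1
    have hx : (0 : ℝ) ≤ (j : ℝ) + 256 := by positivity
    calc Real.sqrt (Real.sqrt ((j : ℝ) + 256)) ^ 4
        = (Real.sqrt (Real.sqrt ((j : ℝ) + 256)) ^ 2) ^ 2 := by ring
      _ = _ := by rw [Real.sq_sqrt (Real.sqrt_nonneg _), Real.sq_sqrt hx]
  rw [← h3]
  ring

lemma exp_κ (j : ℕ) :
    Real.exp (-(32 * ((q : ℝ) + 1) * @κ (wtq q) j)) = 1 / ((j : ℝ) + 256) ^ 2 := by
  have h0 : 0 < @β (wtq q) j := @β_pos (wtq q) j
  have h1 : -(32 * ((q : ℝ) + 1) * @κ (wtq q) j) =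
      ((16 * (q + 1) : ℕ) : ℝ) * Real.log (@β (wtq q) j) := by
    unfold κ; push_cast; ring
  rw [h1, ← Real.log_pow, Real.exp_log (by positivity), mul_comm, pow_mul, β_pow]
  have h2 : rr j ^ 16 = (rr j ^ 8) ^ 2 := by ring
  rw [h2, rr_pow_8, div_pow, one_pow]

lemma summable_exp : Summable fun j : ℕ => Real.exp (-(32 * ((q : ℝ) + 1) * @κ (wtq q) j)) := by
  simp only [exp_κ]
  have h1 : Summable fun n : ℕ => 1 / (n : ℝ) ^ 2 :=
    Real.summable_one_div_nat_pow.2 (by norm_num)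
  have h2 := (summable_nat_add_iff 256).2 h1
  refine h2.congr fun j => ?_
  push_cast
  rfl

/-- the constant of the counting function -/
noncomputable def CC : ℝ :=
  Real.exp (∑' j : ℕ, Real.exp (-(32 * ((q : ℝ) + 1) * @κ (wtq q) j)))

lemma count (R : ℝ) : ((@finite_cA_le (wtq q) R).toFinset.card : ℝ) ≤
    CC q * Real.exp (32 * ((q : ℝ) + 1) * R) := by
  obtain ⟨N, hN⟩ : ∃ N : ℕ, (@finite_cA_le (wtq q) R).toFinset ⊆ (Finset.range N).powerset := by
    obtain ⟨N, hN⟩ := ((@finite_cA_le (wtq q) R).toFinset.biUnion id).exists_nat_subset_range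
    refine ⟨N, fun A hA => Finset.mem_powerset.2 ?_⟩
    refine subset_trans ?_ hN
    intro j hj
    exact Finset.mem_biUnion.2 ⟨A, hA, hj⟩
  have h1 : ∀ A : Finset ℕ, Real.exp (-(32 * ((q : ℝ) + 1) * @cA (wtq q) A)) =
      ∏ j ∈ A, Real.exp (-(32 * ((q : ℝ) + 1) * @κ (wtq q) j)) := by
    intro A
    rw [← Real.exp_sum]
    congr 1
    unfold cA
    rw [Finset.mul_sum, Finset.sum_neg_distrib]
  have h2 : ((@finite_cA_le (wtq q) R).toFinset.card : ℝ) *
      Real.exp (-(32 * ((q : ℝ) + 1) * R)) ≤ CC q := by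
    calc ((@finite_cA_le (wtq q) R).toFinset.card : ℝ) * Real.exp (-(32 * ((q : ℝ) + 1) * R))
        = ∑ A ∈ (@finite_cA_le (wtq q) R).toFinset, Real.exp (-(32 * ((q : ℝ) + 1) * R)) := by
          rw [Finset.sum_const, nsmul_eq_mul]
      _ ≤ ∑ A ∈ (@finite_cA_le (wtq q) R).toFinset,
            Real.exp (-(32 * ((q : ℝ) + 1) * @cA (wtq q) A)) := by
          refine Finset.sum_le_sum fun A hA => Real.exp_le_exp.2 ?_
          rw [Set.Finite.mem_toFinset] at hA
          have h3 : @cA (wtq q) A ≤ R := hA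
          have h4 : (0 : ℝ) ≤ 32 * ((q : ℝ) + 1) := by positivity
          have := mul_le_mul_of_nonneg_left h3 h4
          linarith
      _ ≤ ∑ A ∈ (Finset.range N).powerset,
            Real.exp (-(32 * ((q : ℝ) + 1) * @cA (wtq q) A)) :=
          Finset.sum_le_sum_of_subset_of_nonneg hN fun _ _ _ => (Real.exp_pos _).le
      _ = ∏ j ∈ Finset.range N, (1 + Real.exp (-(32 * ((q : ℝ) + 1) * @κ (wtq q) j))) := by
          simp only [h1]
          rw [Finset.prod_one_add]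
      _ ≤ ∏ j ∈ Finset.range N, Real.exp (Real.exp (-(32 * ((q : ℝ) + 1) * @κ (wtq q) j))) := by
          refine Finset.prod_le_prod (fun j _ => by positivity) fun j _ => ?_
          have := Real.add_one_le_exp (Real.exp (-(32 * ((q : ℝ) + 1) * @κ (wtq q) j)))
          linarith
      _ = Real.exp (∑ j ∈ Finset.range N, Real.exp (-(32 * ((q : ℝ) + 1) * @κ (wtq q) j))) := by
          rw [Real.exp_sum]
      _ ≤ CC q := Real.exp_le_exp.2
          ((summable_exp q).sum_le_tsum _ fun _ _ => (Real.exp_pos _).le)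
  have h3 : Real.exp (-(32 * ((q : ℝ) + 1) * R)) * Real.exp (32 * ((q : ℝ) + 1) * R) = 1 := by
    rw [← Real.exp_add]; simp
  calc ((@finite_cA_le (wtq q) R).toFinset.card : ℝ)
      = ((@finite_cA_le (wtq q) R).toFinset.card : ℝ) * Real.exp (-(32 * ((q : ℝ) + 1) * R)) *
          Real.exp (32 * ((q : ℝ) + 1) * R) := by
        rw [mul_assoc, h3, mul_one]
    _ ≤ _ := mul_le_mul_of_nonneg_right h2 (Real.exp_pos _).le

lemma apn_Kn (n : ℕ) (R : ℝ) (k : ℕ)
    (hk : ((n : ℝ) + 1) * (CC q * Real.exp (32 * ((q : ℝ) + 1) * R)) ≤ k) :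
    apn (@Kn (wtq q) n) k ≤ Real.exp (-R / (n + 2)) := by
  have hC : 0 < CC q := Real.exp_pos _
  have h1 : n * (@finite_cA_le (wtq q) R).toFinset.card ≤ k := by
    have h2 : ((n * (@finite_cA_le (wtq q) R).toFinset.card : ℕ) : ℝ) ≤ k := by
      push_cast
      refine le_trans ?_ hk
      exact mul_le_mul (by linarith) (count q R) (Nat.cast_nonneg _) (by positivity)
    exact_mod_cast h2
  refine (apn_anti _ h1).trans ?_
  refine apn_diag_le (fun A => kk n (@cA (wtq q) A)) _ n (fun A => kk_rank n _) _ _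
    (Real.exp_pos _).le ?_
  intro A hA
  rw [Set.Finite.mem_toFinset] at hA
  have hA' : R < @cA (wtq q) A := not_le.1 hA
  refine (kk_norm n _ (@cA_nonneg (wtq q) A)).trans ?_
  refine Real.exp_le_exp.2 ?_
  have h0 : (0 : ℝ) < n + 2 := by positivity
  rw [div_le_div_iff_of_pos_right h0]
  linarith

theorem Kn_schatten (n : ℕ) :
    MemSchatten (64 * ((q : ℝ) + 1) * ((n : ℝ) + 2)) (@Kn (wtq q) n) := by
  obtain ⟨M, hM⟩ : ∃ M : ℝ, M = ((n : ℝ) + 1) * CC q := ⟨_, rfl⟩
  have hC : 0 < CC q := Real.exp_pos _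
  have hM0 : 0 < M := by rw [hM]; positivity
  have h0 : (0 : ℝ) < n + 2 := by positivity
  have h1 : Summable fun k : ℕ => M ^ 2 * (1 / (k : ℝ) ^ 2) :=
    (Real.summable_one_div_nat_pow.2 (by norm_num)).mul_left _
  refine Summable.of_norm_bounded_eventually_nat h1 ?_
  obtain ⟨N, hN⟩ := exists_nat_gt M
  filter_upwards [eventually_ge_atTop (N + 1)] with k hk
  have hkM : M < k := hN.trans (by exact_mod_cast hk)
  have hk0 : (0 : ℝ) < k := hM0.trans hkM
  obtain ⟨R, hR⟩ : ∃ R : ℝ, R = Real.log (k / M) / (32 * ((q : ℝ) + 1)) := ⟨_, rfl⟩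
  have h2 : Real.exp (32 * ((q : ℝ) + 1) * R) = k / M := by
    rw [hR, mul_div_cancel₀ _ (by positivity : 32 * ((q : ℝ) + 1) ≠ 0),
      Real.exp_log (by positivity)]
  have h3 := apn_Kn q n R k (by
    rw [← mul_assoc, ← hM, h2]
    field_simp
    exact le_rfl)
  have h4 := apn_nonneg (@Kn (wtq q) n) k
  rw [Real.norm_of_nonneg (Real.rpow_nonneg h4 _)]
  refine (Real.rpow_le_rpow h4 h3 (by positivity)).trans ?_
  rw [← Real.exp_mul]
  have h5 : -R / ((n : ℝ) + 2) * (64 * ((q : ℝ) + 1) * ((n : ℝ) + 2)) =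
      -(Real.log (k / M) + Real.log (k / M)) := by
    rw [hR]
    field_simp
    ring
  rw [h5, Real.exp_neg, Real.exp_add, Real.exp_log (by positivity)]
  apply le_of_eq
  field_simp

/-- no nonzero operator of `Alg L` is in `S_{4(q+1)}` -/
theorem not_S {T : HH →L[ℂ] HH} (hT : T ∈ Alg (@LL (wtq q))) (h0 : T ≠ 0) :
    ¬ MemSchatten (4 * ((q : ℝ) + 1)) T := by
  intro h
  obtain ⟨c, hc, J, hev⟩ := @slow (wtq q) T hT h0
  have h1 : Summable fun n : ℕ => c ^ (4 * (q + 1)) * (1 / ((n : ℝ) + (J + 257 : ℕ))) := by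
    refine Summable.of_norm_bounded_eventually_nat h ?_
    filter_upwards [hev] with n hn
    rw [Real.norm_of_nonneg (by positivity)]
    have e1 : apn T n ^ (4 * ((q : ℝ) + 1)) = apn T n ^ (4 * (q + 1)) := by
      have := Real.rpow_natCast (apn T n) (4 * (q + 1))
      push_cast at this
      exact this
    rw [e1]
    refine le_trans ?_ (pow_le_pow_left₀ (mul_pos hc (@β_pos (wtq q) _)).le hn (4 * (q + 1)))
    rw [mul_pow]
    refine mul_le_mul_of_nonneg_left ?_ (by positivity)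
    have h2 : @β (wtq q) ((n + 1) ^ 2 + J) ^ (4 * (q + 1)) = (rr ((n + 1) ^ 2 + J) ^ 2) ^ 2 := by
      rw [mul_comm, pow_mul, β_pow]; ring
    rw [h2, rr_sq, div_pow, one_pow, Real.sq_sqrt (Real.sqrt_nonneg _)]
    refine one_div_le_one_div_of_le (by positivity) ?_
    refine Real.sqrt_le_iff.2 ⟨by positivity, ?_⟩
    push_cast
    have hn0 : (0 : ℝ) ≤ n := Nat.cast_nonneg n
    have hJ0 : (0 : ℝ) ≤ J := Nat.cast_nonneg J
    nlinarith [mul_nonneg hn0 hJ0]
  have h3 : Summable fun n : ℕ => 1 / ((n : ℝ) + (J + 257 : ℕ)) := by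
    have := h1.mul_left ((c ^ (4 * (q + 1)))⁻¹)
    refine this.congr fun n => ?_
    field_simp
  have h4 : Summable fun n : ℕ => 1 / (n : ℝ) := by
    rw [← summable_nat_add_iff (J + 257)]
    refine h3.congr fun n => ?_
    push_cast
    rfl
  exact Real.not_summable_one_div_natCast h4

end fix

end Pool.Agent.KS6_96.Sch
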